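import Pool.Agent.SZQ.Inst

/-! # SZQ/AutC: a field automorphism commuting with the Tits endomorphism acts on the Suzuki group -/

set_option autoImplicit false

namespace Pool.Agent.SZQ

open Inst Pool.Agent.Helper8.SUZ

section

variable {F : Type} [Field F] [Tits F] (σ : F ≃+* F)

theorem autC_S (hc : ∀ x, σ (th x) = th (σ x)) (a b : F) :
    Matrix.GeneralLinearGroup.map (σ : F →+* F) (gS a b) = gS (σ a) (σ b) := by
  apply Units.ext
  ext i j
  fin_cases i <;> fin_cases j <;> simp [gS, mS, hc]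

theorem autC_M (hc : ∀ x, σ (th x) = th (σ x)) (m : Fˣ) :
    Matrix.GeneralLinearGroup.map (σ : F →+* F) (gM m) = gM (Units.map (σ : F →* F) m) := by
  apply Units.ext
  ext i j
  fin_cases i <;> fin_cases j <;> simp [gM, mM, hc]

theorem autC_W : Matrix.GeneralLinearGroup.map (σ : F →+* F) gW = gW := by
  apply Units.ext
  ext i j
  fin_cases i <;> fin_cases j <;> simp [gW, mW]

theorem autC_mem (hc : ∀ x, σ (th x) = th (σ x)) (g : GL (Fin 4) F) (hg : g ∈ Sz (th : F →+* F)) :
    Matrix.GeneralLinearGroup.map (σ : F →+* F) g ∈ Sz (th : F →+* F) := by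
  have h : Sz (th : F →+* F) ≤
      (Sz (th : F →+* F)).comap (Matrix.GeneralLinearGroup.map (σ : F →+* F)) := by
    refine (Subgroup.closure_le _).2 ?_
    rintro x (⟨a, b, hx⟩ | ⟨m, hm, hx⟩ | hx)
    · have e : x = gS a b := Units.ext hx
      change Matrix.GeneralLinearGroup.map (σ : F →+* F) x ∈ Sz (th : F →+* F)
      rw [e, autC_S σ hc]
      exact (sS (σ a) (σ b)).2
    · have e : x = gM (Units.mk0 m hm) := Units.ext hx
      change Matrix.GeneralLinearGroup.map (σ : F →+* F) x ∈ Sz (th : F →+* F)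
      rw [e, autC_M σ hc]
      exact (sM (Units.map (σ : F →* F) (Units.mk0 m hm))).2
    · have e : x = gW := Units.ext hx
      change Matrix.GeneralLinearGroup.map (σ : F →+* F) x ∈ Sz (th : F →+* F)
      rw [e, autC_W σ]
      exact (sW : Sz (th : F →+* F)).2
  exact h hg

end

theorem szAut {F : Type} [Field F] [Finite F] [Tits F] (σ : F ≃+* F)
    (hc : ∀ x, σ (th x) = th (σ x)) :
    ∃ φ : Sz (th : F →+* F) ≃* Sz (th : F →+* F),
      (∀ g, ((φ g : Sz (th : F →+* F)) : GL (Fin 4) F) =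
        Matrix.GeneralLinearGroup.map (σ : F →+* F) (g : GL (Fin 4) F)) ∧
      (∀ a b, φ (sS a b) = sS (σ a) (σ b)) ∧
      (∀ m : Fˣ, φ (sM m) = sM (Units.map (σ : F →* F) m)) ∧ φ sW = sW ∧
      ∀ u, φ u ∈ UU F ↔ u ∈ UU F := by
  have hc' : ∀ x, σ.symm (th x) = th (σ.symm x) := by
    intro x
    rw [RingEquiv.symm_apply_eq, hc, RingEquiv.apply_symm_apply]
  let φ : Sz (th : F →+* F) ≃* Sz (th : F →+* F) :=
    { toFun := fun g => ⟨Matrix.GeneralLinearGroup.map (σ : F →+* F) g.1, autC_mem σ hc g.1 g.2⟩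
      invFun := fun g =>
        ⟨Matrix.GeneralLinearGroup.map (σ.symm : F →+* F) g.1, autC_mem σ.symm hc' g.1 g.2⟩
      left_inv := by
        intro g
        apply Subtype.ext
        apply Units.ext
        ext i j
        simp
      right_inv := by
        intro g
        apply Subtype.ext
        apply Units.ext
        ext i j
        simp
      map_mul' := fun g h => Subtype.ext (map_mul _ g.1 h.1) }
  have hS : ∀ a b, φ (sS a b) = sS (σ a) (σ b) := fun a b => Subtype.ext (autC_S σ hc a b)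
  refine ⟨φ, fun g => rfl, hS, fun m => Subtype.ext (autC_M σ hc m), Subtype.ext (autC_W σ), ?_⟩
  intro u
  constructor
  · rintro ⟨a, b, h⟩
    refine ⟨σ.symm a, σ.symm b, φ.injective ?_⟩
    rw [h, hS, RingEquiv.apply_symm_apply, RingEquiv.apply_symm_apply]
  · rintro ⟨a, b, rfl⟩
    exact ⟨_, _, hS a b⟩

end Pool.Agent.SZQ
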