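import Pool.Agent.SZQ.Defs

/-!
# SZQ / BN: from the base point to the Zassenhaus group

`B = U ⟨h⟩`, `O = G / B`; the points are `B` and `u w B` (`u ∈ U`); `U (g B) = g U g⁻¹`.
-/

set_option autoImplicit false

namespace Pool.Agent.SZQ

open Subgroup

namespace BNd

variable {q : ℕ} {G : Type} [Group G]

/-- the Borel subgroup -/
def B (D : BNd q G) : Subgroup G where
  carrier := {g | ∃ u ∈ D.U, ∃ t ∈ zpowers D.h, g = u * t}
  mul_mem' := by
    rintro _ _ ⟨u, hu, t, ht, rfl⟩ ⟨u', hu', t', ht', rfl⟩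
    exact ⟨u * (t * u' * t⁻¹), mul_mem hu (D.norm t ht u' hu'), t * t', mul_mem ht ht', by group⟩
  one_mem' := ⟨1, one_mem _, 1, one_mem _, by simp⟩
  inv_mem' := by
    rintro _ ⟨u, hu, t, ht, rfl⟩
    refine ⟨t⁻¹ * u⁻¹ * t⁻¹⁻¹, D.norm t⁻¹ (inv_mem ht) u⁻¹ (inv_mem hu), t⁻¹, inv_mem ht, by group⟩

lemma mem_B (D : BNd q G) (g : G) : g ∈ D.B ↔ ∃ u ∈ D.U, ∃ t ∈ zpowers D.h, g = u * t := Iff.rfl

lemma U_le (D : BNd q G) {u : G} (hu : u ∈ D.U) : u ∈ D.B := ⟨u, hu, 1, one_mem _, by simp⟩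

lemma T_le (D : BNd q G) {t : G} (ht : t ∈ zpowers D.h) : t ∈ D.B := ⟨1, one_mem _, t, ht, by simp⟩

lemma winv (D : BNd q G) : D.w⁻¹ = D.w := inv_eq_of_mul_eq_one_right D.w2

lemma w_nB (D : BNd q G) : D.w ∉ D.B := by
  rintro ⟨u, hu, t, ht, h⟩
  exact D.ne u hu t ht 1 (one_mem _) 1 (one_mem _) 1 (one_mem _) (by rw [← h]; simp)

/-- `B` normalizes `U` -/
lemma B_norm (D : BNd q G) {b u : G} (hb : b ∈ D.B) (hu : u ∈ D.U) : b * u * b⁻¹ ∈ D.U := by
  obtain ⟨v, hv, t, ht, rfl⟩ := hb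
  have h1 := mul_mem (mul_mem hv (D.norm t ht u hu)) (inv_mem hv)
  have h2 : v * t * u * (v * t)⁻¹ = v * (t * u * t⁻¹) * v⁻¹ := by group
  rw [h2]
  exact h1

lemma B_norm' (D : BNd q G) {b u : G} (hb : b ∈ D.B) (hu : u ∈ D.U) : b⁻¹ * u * b ∈ D.U := by
  have h1 := D.B_norm (inv_mem hb) hu
  rwa [inv_inv] at h1

/-- the root group of a point -/
def V (D : BNd q G) (p : G ⧸ D.B) : Subgroup G where
  carrier := {u | ∀ g : G, (g : G ⧸ D.B) = p → g⁻¹ * u * g ∈ D.U}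
  mul_mem' := by
    intro a b ha hb g hg
    have h1 := mul_mem (ha g hg) (hb g hg)
    have h2 : g⁻¹ * (a * b) * g = g⁻¹ * a * g * (g⁻¹ * b * g) := by group
    rw [h2]
    exact h1
  one_mem' := by
    intro g _
    simp
  inv_mem' := by
    intro a ha g hg
    have h1 := inv_mem (ha g hg)
    have h2 : g⁻¹ * a⁻¹ * g = (g⁻¹ * a * g)⁻¹ := by group
    rw [h2]
    exact h1

lemma mem_V (D : BNd q G) (g u : G) : u ∈ D.V (g : G ⧸ D.B) ↔ g⁻¹ * u * g ∈ D.U := by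
  refine ⟨fun h => h g rfl, fun h k hk => ?_⟩
  have hb : g⁻¹ * k ∈ D.B := QuotientGroup.eq.1 hk.symm
  have h1 := D.B_norm' hb h
  have h2 : (g⁻¹ * k)⁻¹ * (g⁻¹ * u * g) * (g⁻¹ * k) = k⁻¹ * u * k := by group
  rwa [h2] at h1

/-- the big cell -/
lemma cell (D : BNd q G) (p : G ⧸ D.B) (hp : p ≠ ((1 : G) : G ⧸ D.B)) :
    ∃ v ∈ D.U, p = ((v * D.w : G) : G ⧸ D.B) := by
  induction p using QuotientGroup.induction_on with
  | H a =>
    have ha : a⁻¹ ∉ D.B := by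
      intro h
      apply hp
      rw [QuotientGroup.eq, mul_one]
      exact h
    rcases D.form a⁻¹ with ⟨u, hu, t, ht, h⟩ | ⟨u, hu, t, ht, v, hv, h⟩
    · exact absurd ⟨u, hu, t, ht, h⟩ ha
    · refine ⟨v⁻¹, inv_mem hv, ?_⟩
      rw [QuotientGroup.eq, h]
      have h2 : u * t * D.w * v * (v⁻¹ * D.w) = u * t := by
        have h3 : u * t * D.w * v * (v⁻¹ * D.w) = u * t * (D.w * D.w) := by group
        rw [h3, D.w2, mul_one]
      rw [h2]
      exact ⟨u, hu, t, ht, rfl⟩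

/-- elements of `U` fixing `w B` -/
lemma fixw (D : BNd q G) {u : G} (hu : u ∈ D.U)
    (h : u • ((D.w : G) : G ⧸ D.B) = ((D.w : G) : G ⧸ D.B)) : u = 1 := by
  have h1 : ((D.w : G) : G ⧸ D.B) = ((u * D.w : G) : G ⧸ D.B) := h.symm
  rw [QuotientGroup.eq] at h1
  obtain ⟨u', hu', t', ht', h2⟩ := h1
  rw [D.winv] at h2
  have h3 : (1 : G) * 1 * D.w * u = u' * t' * D.w * 1 := by
    rw [← h2]
    have h4 : D.w * (u * D.w) * D.w * 1 = D.w * u * (D.w * D.w) := by group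
    rw [h4, D.w2]
    group
  exact (D.uniq2 1 (one_mem _) 1 (one_mem _) u hu u' hu' t' ht' 1 (one_mem _) h3).2.2

/-- the stabilizer of the two base points -/
lemma stab2 (D : BNd q G) {g : G} (h0 : g • ((1 : G) : G ⧸ D.B) = ((1 : G) : G ⧸ D.B))
    (h1 : g • ((D.w : G) : G ⧸ D.B) = ((D.w : G) : G ⧸ D.B)) : g ∈ zpowers D.h := by
  have h2 : ((1 : G) : G ⧸ D.B) = ((g * 1 : G) : G ⧸ D.B) := h0.symm
  rw [QuotientGroup.eq, mul_one, inv_one, one_mul] at h2
  obtain ⟨u, hu, t, ht, rfl⟩ := h2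
  have h3 : ((D.w : G) : G ⧸ D.B) = ((u * t * D.w : G) : G ⧸ D.B) := h1.symm
  have h4 : ((u * t * D.w : G) : G ⧸ D.B) = ((u * D.w : G) : G ⧸ D.B) := by
    rw [QuotientGroup.eq]
    have h5 : (u * t * D.w)⁻¹ * (u * D.w) = (D.w * t * D.w⁻¹)⁻¹ := by
      rw [mul_inv_rev, mul_inv_rev, D.winv, mul_inv_rev, mul_inv_rev, D.winv]
      group
    rw [h5, D.wh t ht, inv_inv]
    exact D.T_le ht
  have h6 : u = 1 := D.fixw hu (by
    have h7 : u • ((D.w : G) : G ⧸ D.B) = ((u * D.w : G) : G ⧸ D.B) := rfl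
    rw [h7, ← h4, ← h3])
  rw [h6, one_mul]
  exact ht

/-- 2-transitivity -/
lemma two' (D : BNd q G) {x y : G ⧸ D.B} (h : x ≠ y) :
    ∃ g : G, g • ((1 : G) : G ⧸ D.B) = x ∧ g • ((D.w : G) : G ⧸ D.B) = y := by
  induction x using QuotientGroup.induction_on with
  | H k =>
    have h1 : k⁻¹ • y ≠ ((1 : G) : G ⧸ D.B) := by
      intro h2
      apply h
      rw [← smul_inv_smul k y, h2]
      change _ = ((k * 1 : G) : G ⧸ D.B)
      rw [mul_one]
    obtain ⟨v, hv, h2⟩ := D.cell _ h1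
    refine ⟨k * v, ?_, ?_⟩
    · change ((k * v * 1 : G) : G ⧸ D.B) = _
      rw [QuotientGroup.eq]
      have h3 : (k * v * 1)⁻¹ * k = v⁻¹ := by group
      rw [h3]
      exact D.U_le (inv_mem hv)
    · rw [mul_smul]
      change k • ((v * D.w : G) : G ⧸ D.B) = y
      rw [← h2, smul_inv_smul]

lemma w0 (D : BNd q G) : D.w • ((1 : G) : G ⧸ D.B) = ((D.w : G) : G ⧸ D.B) := by
  change ((D.w * 1 : G) : G ⧸ D.B) = _
  rw [mul_one]

lemma w1 (D : BNd q G) : D.w • ((D.w : G) : G ⧸ D.B) = ((1 : G) : G ⧸ D.B) := by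
  change ((D.w * D.w : G) : G ⧸ D.B) = _
  rw [D.w2]

lemma b0 (D : BNd q G) {b : G} (hb : b ∈ D.B) :
    b • ((1 : G) : G ⧸ D.B) = ((1 : G) : G ⧸ D.B) := by
  change ((b * 1 : G) : G ⧸ D.B) = _
  rw [mul_one, QuotientGroup.eq, mul_one]
  exact inv_mem hb

lemma t1 (D : BNd q G) {t : G} (ht : t ∈ zpowers D.h) :
    t • ((D.w : G) : G ⧸ D.B) = ((D.w : G) : G ⧸ D.B) := by
  change ((t * D.w : G) : G ⧸ D.B) = _
  rw [QuotientGroup.eq]
  have h5 : (t * D.w)⁻¹ * D.w = (D.w * t * D.w⁻¹)⁻¹ := by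
    rw [mul_inv_rev, D.winv, mul_inv_rev, mul_inv_rev, D.winv]
    have h6 : D.w * t⁻¹ * D.w = D.w * (t⁻¹ * D.w) := by group
    rw [h6]
  have h6 : t⁻¹ ∈ zpowers D.h := inv_mem ht
  rw [h5, D.wh t ht, inv_inv]
  exact D.T_le ht

/-- elements of `V p` fixing another point -/
lemma freeV (D : BNd q G) {p x : G ⧸ D.B} (hx : x ≠ p) {u : G} (hu : u ∈ D.V p)
    (h : u • x = x) : u = 1 := by
  obtain ⟨g, hg0, hg1⟩ := D.two' hx.symm
  have h1 : g⁻¹ * u * g ∈ D.U := hu g (by rw [← hg0]; change _ = ((g * 1 : G) : G ⧸ D.B); rw [mul_one])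
  have h2 := D.fixw h1 (by
    rw [mul_smul, mul_smul, hg1, h, ← hg1, inv_smul_smul])
  have h3 : u = g * (g⁻¹ * u * g) * g⁻¹ := by group
  rw [h3, h2]
  group

lemma free' (D : BNd q G) (g : G) (x y z : G ⧸ D.B) (hxy : x ≠ y) (hyz : y ≠ z) (hxz : x ≠ z)
    (hx : g • x = x) (hy : g • y = y) (hz : g • z = z) : g = 1 := by
  obtain ⟨k, hk0, hk1⟩ := D.two' hxy
  have e : ∀ p : G ⧸ D.B, g • p = p → (k⁻¹ * g * k) • (k⁻¹ • p) = k⁻¹ • p := by
    intro p hp
    rw [mul_smul, mul_smul, smul_inv_smul, hp]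
  have hx' : k⁻¹ • x = ((1 : G) : G ⧸ D.B) := by rw [← hk0, inv_smul_smul]
  have hy' : k⁻¹ • y = ((D.w : G) : G ⧸ D.B) := by rw [← hk1, inv_smul_smul]
  have ht : k⁻¹ * g * k ∈ zpowers D.h := D.stab2 (by rw [← hx', e x hx]) (by rw [← hy', e y hy])
  have hz0 : k⁻¹ • z ≠ ((1 : G) : G ⧸ D.B) := by
    rw [← hx']
    intro h
    exact hxz (smul_left_cancel _ h).symm
  obtain ⟨v, hv, hv1⟩ := D.cell _ hz0
  have hz1 := e z hz
  rw [hv1] at hz1
  set t := k⁻¹ * g * k with htdef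
  have h1 : (v⁻¹ * (t * v * t⁻¹)) • ((D.w : G) : G ⧸ D.B) = ((D.w : G) : G ⧸ D.B) := by
    have h2 : t⁻¹ • ((D.w : G) : G ⧸ D.B) = ((D.w : G) : G ⧸ D.B) := D.t1 (inv_mem ht)
    rw [mul_smul, mul_smul, mul_smul, h2]
    change v⁻¹ • t • ((v * D.w : G) : G ⧸ D.B) = _
    rw [hz1]
    change v⁻¹ • v • ((D.w : G) : G ⧸ D.B) = _
    rw [inv_smul_smul]
  have h2 : v⁻¹ * (t * v * t⁻¹) = 1 :=
    D.fixw (mul_mem (inv_mem hv) (D.norm t ht v hv)) h1
  have h3 : t * v * t⁻¹ = v := by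
    rw [inv_mul_eq_one] at h2
    exact h2.symm
  rcases D.fp t ht v hv h3 with h4 | h4
  · have h5 : g = k * t * k⁻¹ := by rw [htdef]; group
    rw [h5, h4]
    group
  · exfalso
    rw [h4, one_mul] at hv1
    apply hyz
    have h6 : k⁻¹ • y = k⁻¹ • z := by rw [hy', hv1]
    exact smul_left_cancel _ h6

lemma tor' (D : BNd q G) {x y : G ⧸ D.B} (hxy : x ≠ y) :
    ∃ h : G, h • x = x ∧ h • y = y ∧ orderOf h = q - 1 ∧
      ∀ g : G, g • x = x → g • y = y → g ∈ zpowers h := by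
  obtain ⟨k, hk0, hk1⟩ := D.two' hxy
  refine ⟨k * D.h * k⁻¹, ?_, ?_, ?_, ?_⟩
  · rw [← hk0, mul_smul, mul_smul, inv_smul_smul, D.b0 (D.T_le (mem_zpowers _))]
  · rw [← hk1, mul_smul, mul_smul, inv_smul_smul, D.t1 (mem_zpowers _)]
  · rw [← D.ord]
    exact (MulAut.conj k).orderOf_eq D.h
  · intro g hx hy
    have e : ∀ p : G ⧸ D.B, g • p = p → (k⁻¹ * g * k) • (k⁻¹ • p) = k⁻¹ • p := by
      intro p hp
      rw [mul_smul, mul_smul, smul_inv_smul, hp]
    have hx' : k⁻¹ • x = ((1 : G) : G ⧸ D.B) := by rw [← hk0, inv_smul_smul]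
    have hy' : k⁻¹ • y = ((D.w : G) : G ⧸ D.B) := by rw [← hk1, inv_smul_smul]
    have ht : k⁻¹ * g * k ∈ zpowers D.h := D.stab2 (by rw [← hx', e x hx]) (by rw [← hy', e y hy])
    obtain ⟨n, hn⟩ := mem_zpowers_iff.1 ht
    refine mem_zpowers_iff.2 ⟨n, ?_⟩
    rw [conj_zpow, hn]
    group

lemma inv' (D : BNd q G) {x y : G ⧸ D.B} (hxy : x ≠ y) :
    ∃ w : G, w • x = y ∧ w • y = x ∧ ∀ t : G, t • x = x → t • y = y → w * t * w⁻¹ = t⁻¹ := by
  obtain ⟨k, hk0, hk1⟩ := D.two' hxy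
  refine ⟨k * D.w * k⁻¹, ?_, ?_, ?_⟩
  · rw [← hk0, mul_smul, mul_smul, inv_smul_smul, D.w0, hk1]
  · rw [← hk1, mul_smul, mul_smul, inv_smul_smul, D.w1, hk0]
  · intro g hx hy
    have e : ∀ p : G ⧸ D.B, g • p = p → (k⁻¹ * g * k) • (k⁻¹ • p) = k⁻¹ • p := by
      intro p hp
      rw [mul_smul, mul_smul, smul_inv_smul, hp]
    have hx' : k⁻¹ • x = ((1 : G) : G ⧸ D.B) := by rw [← hk0, inv_smul_smul]
    have hy' : k⁻¹ • y = ((D.w : G) : G ⧸ D.B) := by rw [← hk1, inv_smul_smul]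
    have ht : k⁻¹ * g * k ∈ zpowers D.h := D.stab2 (by rw [← hx', e x hx]) (by rw [← hy', e y hy])
    have h1 := D.wh _ ht
    have h2 : k * D.w * k⁻¹ * g * (k * D.w * k⁻¹)⁻¹ =
        k * (D.w * (k⁻¹ * g * k) * D.w⁻¹) * k⁻¹ := by group
    rw [h2, h1]
    group

/-- the points -/
noncomputable def pts (D : BNd q G) : Option D.U ≃ G ⧸ D.B :=
  Equiv.ofBijective (fun o => o.elim ((1 : G) : G ⧸ D.B) fun u => (((u : G) * D.w : G) : G ⧸ D.B)) (by
    have hne : ∀ u ∈ D.U, ((u * D.w : G) : G ⧸ D.B) ≠ ((1 : G) : G ⧸ D.B) := by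
      intro u hu h
      rw [QuotientGroup.eq, mul_one, mul_inv_rev] at h
      have h1 := mul_mem h (D.U_le hu)
      rw [inv_mul_cancel_right] at h1
      have h2 := inv_mem h1
      rw [inv_inv] at h2
      exact D.w_nB h2
    constructor
    · intro a b hab
      cases a with
      | none =>
        cases b with
        | none => rfl
        | some b => exact absurd hab.symm (hne b b.2)
      | some a =>
        cases b with
        | none => exact absurd hab (hne a a.2)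
        | some b =>
          have h1 : ((b : G)⁻¹ * a) • ((D.w : G) : G ⧸ D.B) = ((D.w : G) : G ⧸ D.B) := by
            rw [mul_smul]
            change (b : G)⁻¹ • (((a : G) * D.w : G) : G ⧸ D.B) = _
            have h2 : (((a : G) * D.w : G) : G ⧸ D.B) = (((b : G) * D.w : G) : G ⧸ D.B) := hab
            rw [h2]
            change (b : G)⁻¹ • (b : G) • ((D.w : G) : G ⧸ D.B) = _
            rw [inv_smul_smul]
          have h2 := D.fixw (mul_mem (inv_mem b.2) a.2) h1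
          rw [inv_mul_eq_one] at h2
          rw [Subtype.ext h2.symm]
    · intro p
      by_cases hp : p = ((1 : G) : G ⧸ D.B)
      · exact ⟨none, hp.symm⟩
      · obtain ⟨v, hv, h⟩ := D.cell p hp
        exact ⟨some ⟨v, hv⟩, h.symm⟩)

lemma cardO' [Finite G] (D : BNd q G) : Nat.card (G ⧸ D.B) = q ^ 2 + 1 := by
  rw [← Nat.card_congr D.pts, Finite.card_option, D.cardU]

lemma cardZ' (D : BNd q G) (p : G ⧸ D.B) : Nat.card {u : G // u ∈ D.V p ∧ u * u = 1} = q := by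
  induction p using QuotientGroup.induction_on with
  | H k =>
    refine (Nat.card_congr ((MulAut.conj k).toEquiv.subtypeEquiv fun u => ?_)).symm.trans D.cardZ
    change _ ↔ k * u * k⁻¹ ∈ D.V (k : G ⧸ D.B) ∧ k * u * k⁻¹ * (k * u * k⁻¹) = 1
    rw [D.mem_V]
    have h1 : k⁻¹ * (k * u * k⁻¹) * k = u := by group
    have h2 : k * u * k⁻¹ * (k * u * k⁻¹) = k * (u * u) * k⁻¹ := by group
    rw [h1, h2]
    refine and_congr_right fun _ => ⟨fun h => by rw [h]; group, fun h => ?_⟩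
    have h3 : u * u = k⁻¹ * (k * (u * u) * k⁻¹) * k := by group
    rw [h3, h]
    group

lemma exU' (D : BNd q G) {p x y : G ⧸ D.B} (hx : x ≠ p) (hy : y ≠ p) :
    ∃ u ∈ D.V p, u • x = y := by
  induction p using QuotientGroup.induction_on with
  | H k =>
    have h1 : ∀ z : G ⧸ D.B, z ≠ (k : G ⧸ D.B) → k⁻¹ • z ≠ ((1 : G) : G ⧸ D.B) := by
      intro z hz h2
      apply hz
      rw [← smul_inv_smul k z, h2]
      change ((k * 1 : G) : G ⧸ D.B) = _
      rw [mul_one]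
    obtain ⟨v, hv, hv'⟩ := D.cell _ (h1 x hx)
    obtain ⟨v', hv1, hv2⟩ := D.cell _ (h1 y hy)
    refine ⟨k * (v' * v⁻¹) * k⁻¹, ?_, ?_⟩
    · rw [D.mem_V]
      have h2 : k⁻¹ * (k * (v' * v⁻¹) * k⁻¹) * k = v' * v⁻¹ := by group
      rw [h2]
      exact mul_mem hv1 (inv_mem hv)
    · rw [mul_smul, mul_smul, hv', mul_smul]
      change k • v' • v⁻¹ • v • ((D.w : G) : G ⧸ D.B) = y
      rw [inv_smul_smul]
      change k • ((v' * D.w : G) : G ⧸ D.B) = y
      rw [← hv2, smul_inv_smul]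

lemma gen0 [Finite G] (D : BNd q G) (hq : 8 ≤ q) (K : Subgroup G) {v h : G} (hv : v ∈ D.U)
    (hvK : v ∈ K) (hv2 : v * v ≠ 1) (hK : h ∈ K) (hB : h ∈ D.B) (ho : orderOf h = q - 1) :
    D.U ≤ K := by
  obtain ⟨u, hu, t, ht, rfl⟩ := hB
  have ht1 : t ≠ 1 := by
    rintro rfl
    rw [mul_one] at ho
    have h1 : orderOf u ∣ q ^ 2 := by
      rw [← D.cardU]
      have h2 := orderOf_dvd_natCard (⟨u, hu⟩ : D.U)
      rwa [Subgroup.orderOf_mk] at h2
    rw [ho] at h1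
    have h3 : Nat.Coprime (q - 1) (q ^ 2) := by
      apply Nat.Coprime.pow_right
      have h4 : Nat.Coprime (q - 1) (q - 1 + 1) := by simp
      rwa [Nat.sub_add_cancel (by omega)] at h4
    have h4 := Nat.Coprime.eq_one_of_dvd h3 h1
    omega
  -- lang
  obtain ⟨v1, hv1, hv1e⟩ : ∃ v1 ∈ D.U, v1 * t * v1⁻¹ = u * t := by
    have hinj : Function.Injective (fun x : D.U => (⟨(x : G) * (t * (x : G)⁻¹ * t⁻¹),
        mul_mem x.2 (D.norm t ht _ (inv_mem x.2))⟩ : D.U)) := by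
      intro x y hxy
      have h1 : (x : G) * (t * (x : G)⁻¹ * t⁻¹) = (y : G) * (t * (y : G)⁻¹ * t⁻¹) :=
        congrArg Subtype.val hxy
      have h2 : t * ((y : G)⁻¹ * x) * t⁻¹ = (y : G)⁻¹ * x := by
        have h3 : (x : G) * t * (x : G)⁻¹ = y * t * (y : G)⁻¹ := by
          have h4 : (x : G) * t * (x : G)⁻¹ = (x : G) * (t * (x : G)⁻¹ * t⁻¹) * t := by group
          have h5 : (y : G) * t * (y : G)⁻¹ = (y : G) * (t * (y : G)⁻¹ * t⁻¹) * t := by group
          rw [h4, h5, h1]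
        have h6 : t * ((y : G)⁻¹ * x) * t⁻¹ =
            (y : G)⁻¹ * ((y * t * (y : G)⁻¹) * (x * t⁻¹ * (x : G)⁻¹)) * x := by group
        rw [h6, ← h3]
        group
      rcases D.fp t ht _ (mul_mem (inv_mem y.2) x.2) h2 with h3 | h3
      · exact absurd h3 ht1
      · rw [inv_mul_eq_one] at h3
        exact Subtype.ext h3.symm
    obtain ⟨x, hx⟩ := Finite.surjective_of_injective hinj ⟨u, hu⟩
    have h1 : (x : G) * (t * (x : G)⁻¹ * t⁻¹) = u := congrArg Subtype.val hx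
    refine ⟨x, x.2, ?_⟩
    rw [← h1]
    group
  have hto : orderOf t = q - 1 := by
    rw [← ho, ← hv1e]
    exact ((MulAut.conj v1).orderOf_eq t).symm
  have hht : D.h ∈ zpowers t := by
    have h1 : zpowers t ≤ zpowers D.h := zpowers_le.2 ht
    have h2 : zpowers t = zpowers D.h := by
      apply Subgroup.eq_of_le_of_card_ge h1
      rw [Nat.card_zpowers, Nat.card_zpowers, hto, D.ord]
    rw [h2]
    exact mem_zpowers _
  have htK : t ∈ K.comap (MulAut.conj v1).toMonoidHom := by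
    change v1 * t * v1⁻¹ ∈ K
    rw [hv1e]
    exact hK
  have h1 := D.gen4 (K.comap (MulAut.conj v1).toMonoidHom) (zpowers_le.2 htK hht) (v1⁻¹ * v * v1)
    (mul_mem (mul_mem (inv_mem hv1) hv) hv1) (by
      change v1 * (v1⁻¹ * v * v1) * v1⁻¹ ∈ K
      have h2 : v1 * (v1⁻¹ * v * v1) * v1⁻¹ = v := by group
      rw [h2]
      exact hvK) (by
      intro h2
      apply hv2
      have h3 : v * v = v1 * (v1⁻¹ * v * v1 * (v1⁻¹ * v * v1)) * v1⁻¹ := by group
      rw [h3, h2]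
      group)
  intro x hx
  have h2 : v1 * (v1⁻¹ * x * v1) * v1⁻¹ ∈ K := h1 (mul_mem (mul_mem (inv_mem hv1) hx) hv1)
  have h3 : v1 * (v1⁻¹ * x * v1) * v1⁻¹ = x := by group
  rwa [h3] at h2

end BNd

theorem BNd.zd {q : ℕ} {G : Type} [Group G] [Finite G] (D : BNd q G) (hq : 8 ≤ q) (he : Even q) :
    ∃ (O : Type) (_ : MulAction G O) (_ : Finite O), Nonempty (ZD q G O) := by
  refine ⟨G ⧸ D.B, inferInstance, inferInstance, ⟨⟨D.V, ?_, ?_, fun p x y hx hy => D.exU' hx hy,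
    fun p x hx u hu h => D.freeV hx hu h, D.free', fun x y h => D.tor' h, fun x y h => D.inv' h,
    D.cardO', D.cardZ', ?_, ?_⟩⟩⟩
  · intro p u hu
    induction p using QuotientGroup.induction_on with
    | H k =>
      rw [D.mem_V] at hu
      change ((u * k : G) : G ⧸ D.B) = _
      rw [QuotientGroup.eq]
      have h1 : (u * k)⁻¹ * k = (k⁻¹ * u * k)⁻¹ := by group
      rw [h1]
      exact inv_mem (D.U_le hu)
  · intro g p u hu
    induction p using QuotientGroup.induction_on with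
    | H k =>
      rw [D.mem_V] at hu
      change g * u * g⁻¹ ∈ D.V ((g * k : G) : G ⧸ D.B)
      rw [D.mem_V]
      have h1 : (g * k)⁻¹ * (g * u * g⁻¹) * (g * k) = k⁻¹ * u * k := by group
      rw [h1]
      exact hu
  · intro p K v h hv hvK hv2 hK hp ho
    induction p using QuotientGroup.induction_on with
    | H k =>
      rw [D.mem_V] at hv
      have h1 := D.gen0 hq (K.comap (MulAut.conj k).toMonoidHom) (v := k⁻¹ * v * k)
        (h := k⁻¹ * h * k) hv (by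
          change k * (k⁻¹ * v * k) * k⁻¹ ∈ K
          have h2 : k * (k⁻¹ * v * k) * k⁻¹ = v := by group
          rw [h2]
          exact hvK) (by
          intro h2
          apply hv2
          have h3 : v * v = k * (k⁻¹ * v * k * (k⁻¹ * v * k)) * k⁻¹ := by group
          rw [h3, h2]
          group) (by
          change k * (k⁻¹ * h * k) * k⁻¹ ∈ K
          have h2 : k * (k⁻¹ * h * k) * k⁻¹ = h := by group
          rw [h2]
          exact hK) (by
          have h2 : (k : G ⧸ D.B) = ((h * k : G) : G ⧸ D.B) := hp.symm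
          rw [QuotientGroup.eq] at h2
          rwa [mul_assoc]) (by
          rw [← ho]
          have h2 := (MulAut.conj k⁻¹).orderOf_eq h
          rw [MulAut.conj_apply, inv_inv] at h2
          exact h2)
      intro x hx
      rw [D.mem_V] at hx
      have h2 : k * (k⁻¹ * x * k) * k⁻¹ ∈ K := h1 hx
      have h3 : k * (k⁻¹ * x * k) * k⁻¹ = x := by group
      rwa [h3] at h2
  · intro p u hu
    induction p using QuotientGroup.induction_on with
    | H k =>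
      rw [D.mem_V] at hu
      obtain ⟨x, hx, y, hy, hx2, hy2, hxy⟩ := D.prod4 _ hu
      have e1 : ∀ z : G, k⁻¹ * (k * z * k⁻¹) * k = z := fun z => by group
      have e2 : ∀ z : G, z * z ≠ 1 → k * z * k⁻¹ * (k * z * k⁻¹) ≠ 1 := by
        intro z hz h
        apply hz
        have h3 : z * z = k⁻¹ * (k * z * k⁻¹ * (k * z * k⁻¹)) * k := by group
        rw [h3, h]
        group
      refine ⟨k * x * k⁻¹, ?_, k * y * k⁻¹, ?_, e2 x hx2, e2 y hy2, ?_⟩
      · rw [D.mem_V, e1]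
        exact hx
      · rw [D.mem_V, e1]
        exact hy
      · have h3 : k * x * k⁻¹ * (k * y * k⁻¹) = k * (x * y) * k⁻¹ := by group
        rw [h3, hxy]
        group

end Pool.Agent.SZQ
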