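import Pool.Agent.SZQ.Inst

/-! The data `BNd` of the Suzuki group, explicit version (helper8's proof; packaging helper44). -/

set_option autoImplicit false

namespace Pool.Agent.SZQ

open Pool.Agent.Helper8.SUZ

open Inst in
theorem bnd_szE {F : Type} [Field F] [Finite F] [Tits F] (hF : 8 ≤ Nat.card F) :
    ∃ D : BNd (Nat.card F) (Sz (th : F →+* F)), D.U = UU F ∧ D.w = sW ∧
      ∀ g : Sz (th : F →+* F), g ∈ Subgroup.zpowers D.h ↔ ∃ m, g = sM m := by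
  obtain ⟨m0, hm0⟩ := IsCyclic.exists_generator (α := Fˣ)
  have hz : ∀ g : Sz (th : F →+* F), g ∈ Subgroup.zpowers (sM m0) ↔ ∃ m, g = sM m := by
    intro g
    constructor
    · rintro ⟨j, rfl⟩
      exact ⟨m0 ^ j, ((homM F).map_zpow m0 j).symm⟩
    · rintro ⟨m, rfl⟩
      obtain ⟨j, rfl⟩ := hm0 m
      exact ⟨j, ((homM F).map_zpow m0 j).symm⟩
  refine ⟨{ U := UU F, h := sM m0, w := sW, ord := ?_, norm := ?_, w2 := ?_, wh := ?_, form := ?_, uniq1 := ?_, uniq2 := ?_, ne := ?_, fp := ?_, cardU := ?_, cardZ := ?_, gen4 := ?_, prod4 := ?_ }, rfl, rfl, hz⟩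
  · have h1 : orderOf (homM F m0) = orderOf m0 :=
      orderOf_injective (homM F) (fun m m' h => sM_inj h) m0
    have h2 : orderOf m0 = Nat.card Fˣ := orderOf_eq_card_of_forall_mem_zpowers hm0
    rw [show sM m0 = homM F m0 from rfl, h1, h2, Nat.card_units]
  · intro t ht u hu
    obtain ⟨m, rfl⟩ := (hz t).1 ht
    obtain ⟨a, b, rfl⟩ := hu
    exact ⟨_, _, sM_conj m a b⟩
  · exact Subtype.ext gW_sq
  · intro t ht
    obtain ⟨m, rfl⟩ := (hz t).1 ht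
    rw [mul_inv_eq_iff_eq_mul, sM_inv]
    exact Subtype.ext (gW_gM m)
  · intro g
    rcases s_form g with ⟨a, b, m, rfl⟩ | ⟨a, b, m, c, d, rfl⟩
    · exact Or.inl ⟨_, ⟨a, b, rfl⟩, _, (hz _).2 ⟨m, rfl⟩, rfl⟩
    · exact Or.inr ⟨_, ⟨a, b, rfl⟩, _, (hz _).2 ⟨m, rfl⟩, _, ⟨c, d, rfl⟩, rfl⟩
  · intro u hu t ht u' hu' t' ht' h
    obtain ⟨m, rfl⟩ := (hz t).1 ht
    obtain ⟨m', rfl⟩ := (hz t').1 ht'
    obtain ⟨a, b, rfl⟩ := hu
    obtain ⟨a', b', rfl⟩ := hu'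
    obtain ⟨rfl, rfl, rfl⟩ := s_small h
    exact ⟨rfl, rfl⟩
  · intro u hu t ht v hv u' hu' t' ht' v' hv' h
    obtain ⟨m, rfl⟩ := (hz t).1 ht
    obtain ⟨m', rfl⟩ := (hz t').1 ht'
    obtain ⟨a, b, rfl⟩ := hu
    obtain ⟨a', b', rfl⟩ := hu'
    obtain ⟨c, d, rfl⟩ := hv
    obtain ⟨c', d', rfl⟩ := hv'
    obtain ⟨rfl, rfl, rfl, rfl, rfl⟩ := s_big h
    exact ⟨rfl, rfl, rfl⟩
  · intro u hu t ht u' hu' t' ht' v' hv' h
    obtain ⟨m, rfl⟩ := (hz t).1 ht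
    obtain ⟨m', rfl⟩ := (hz t').1 ht'
    obtain ⟨a, b, rfl⟩ := hu
    obtain ⟨a', b', rfl⟩ := hu'
    obtain ⟨c', d', rfl⟩ := hv'
    exact s_ne _ _ _ _ _ _ _ _ h
  · intro t ht u hu h
    obtain ⟨m, rfl⟩ := (hz t).1 ht
    obtain ⟨a, b, rfl⟩ := hu
    by_cases hm : m = 1
    · exact Or.inl (by rw [hm, sM_one])
    · right
      rw [sM_conj] at h
      obtain ⟨h1, h2⟩ := sS_inj h
      have hm0' : (m : F) ≠ 0 := m.ne_zero
      have ht0 : th (m : F) ≠ 0 := th_ne hm0'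
      have ha : a = 0 := by
        by_contra ha
        refine hm (fp_a ?_)
        rw [div_eq_iff ht0] at h1
        have h3 : a * (th (m : F) - 1) = 0 := by linear_combination -h1
        exact sub_eq_zero.1 ((mul_eq_zero.1 h3).resolve_left ha)
      have hb : b = 0 := by
        by_contra hb
        refine hm (fp_b ?_)
        rw [div_eq_iff (mul_ne_zero ht0 (pow_ne_zero 2 hm0'))] at h2
        have h3 : b * (th (m : F) * (m : F) ^ 2 - 1) = 0 := by linear_combination -h2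
        exact sub_eq_zero.1 ((mul_eq_zero.1 h3).resolve_left hb)
      rw [ha, hb, sS_zero]
  · have e : (F × F) ≃ UU F := Equiv.ofBijective (fun p => ⟨sS p.1 p.2, ⟨_, _, rfl⟩⟩)
      ⟨fun p p' h => Prod.ext (sS_inj (congrArg Subtype.val h)).1
        (sS_inj (congrArg Subtype.val h)).2, fun u => by
        obtain ⟨_, a, b, rfl⟩ := u
        exact ⟨(a, b), rfl⟩⟩
    rw [← Nat.card_congr e, Nat.card_prod, sq]
  · have e : F ≃ {u : Sz (th : F →+* F) // u ∈ UU F ∧ u * u = 1} :=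
      Equiv.ofBijective (fun b => ⟨sS 0 b, ⟨_, _, rfl⟩, sq_eq b⟩)
      ⟨fun p p' h => (sS_inj (congrArg Subtype.val h)).2, fun u => by
        obtain ⟨_, ⟨a, b, rfl⟩, h⟩ := u
        have ha : a = 0 := by
          by_contra ha
          exact sq_ne ha h
        subst ha
        exact ⟨b, rfl⟩⟩
    exact (Nat.card_congr e).symm
  · intro K hK v hv hvK hv2
    obtain ⟨a, b, rfl⟩ := hv
    have ha : a ≠ 0 := by
      rintro rfl
      exact hv2 (sq_eq b)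
    refine gen K (fun m => ?_) ha hvK
    exact (Subgroup.zpowers_le.2 hK) ((hz _).2 ⟨m, rfl⟩)
  · rintro u ⟨a, b, rfl⟩
    exact prod hF a b

end Pool.Agent.SZQ
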