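import Pool.Agent.SZQ.Defs

set_option autoImplicit false

/-! # SZQ module Bas: two-transitivity, the Lang map, elements fixing one point -/

namespace Pool.Agent.SZQ

section
variable {q : ℕ} {G O : Type} [Group G] [Finite G] [MulAction G O] [Finite O]

omit [Finite G] in
private theorem exists_third (Z : ZD q G O) (hq : 2 ≤ q) (x y : O) : ∃ r : O, r ≠ x ∧ r ≠ y := by
  classical
  by_contra h
  push Not at h
  have := Fintype.ofFinite O
  have h1 : Finset.univ ⊆ ({x, y} : Finset O) := by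
    intro r _
    by_cases hr : r = x
    · simp [hr]
    · simp [h r hr]
  have h2 := Finset.card_le_card h1
  have h3 := Finset.card_le_two (a := x) (b := y)
  have h4 := Z.cardO
  rw [Nat.card_eq_fintype_card] at h4
  rw [Finset.card_univ] at h2
  nlinarith

omit [Finite G] in
/-- module Bas -/
theorem ZD.two (Z : ZD q G O) (hq : 2 ≤ q) {x y x' y' : O} (h : x ≠ y) (h' : x' ≠ y') :
    ∃ g : G, g • x = x' ∧ g • y = y' := by
  obtain ⟨r, hr1, hr2⟩ := exists_third Z hq x x'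
  obtain ⟨u, hu, hux⟩ := Z.exU r x x' hr1.symm hr2.symm
  have h1 : u • y ≠ x' := by
    rw [← hux]
    intro h2
    exact h (MulAction.injective u h2).symm
  obtain ⟨v, hv, hvy⟩ := Z.exU x' (u • y) y' h1 h'.symm
  refine ⟨v * u, ?_, ?_⟩
  · rw [mul_smul, hux, Z.fixU x' v hv]
  · rw [mul_smul, hvy]

omit [Finite O] in
/-- module Bas -/
theorem ZD.lang (Z : ZD q G O) {p y : O} (hy : y ≠ p) {u t : G} (hu : u ∈ Z.U p)
    (hp : t • p = p) (hty : t • y = y) (ht : t ≠ 1) : ∃ v ∈ Z.U p, v * t * v⁻¹ = u * t := by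
  have hconj : ∀ v ∈ Z.U p, t * v * t⁻¹ ∈ Z.U p := by
    intro v hv
    have := Z.conjU t p v hv
    rwa [hp] at this
  let f : Z.U p → Z.U p := fun v =>
    ⟨v * (t * (v : G)⁻¹ * t⁻¹), (Z.U p).mul_mem v.2 (hconj _ ((Z.U p).inv_mem v.2))⟩
  have hf : Function.Injective f := by
    rintro ⟨v, hv⟩ ⟨w, hw⟩ hvw
    have h1 : v * (t * v⁻¹ * t⁻¹) = w * (t * w⁻¹ * t⁻¹) := congrArg Subtype.val hvw
    have hsU : w⁻¹ * v ∈ Z.U p := (Z.U p).mul_mem ((Z.U p).inv_mem hw) hv
    have h3 : v * t * v⁻¹ = w * t * w⁻¹ := by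
      have h4 := congrArg (· * t) h1
      simpa [mul_assoc] using h4
    have h2 : (w⁻¹ * v) * t = t * (w⁻¹ * v) := by
      calc (w⁻¹ * v) * t = w⁻¹ * (v * t * v⁻¹) * v := by group
        _ = w⁻¹ * (w * t * w⁻¹) * v := by rw [h3]
        _ = t * (w⁻¹ * v) := by group
    have h5 : t • ((w⁻¹ * v) • y) = (w⁻¹ * v) • y := by
      rw [← mul_smul, ← h2, mul_smul, hty]
    have h6 : (w⁻¹ * v) • y ≠ p := by
      intro h7
      apply hy
      have h8 : (w⁻¹ * v) • y = (w⁻¹ * v) • p := by rw [h7, Z.fixU p _ hsU]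
      exact MulAction.injective _ h8
    have h7 : (w⁻¹ * v) • y = y := by
      by_contra h8
      exact ht (Z.free t p y ((w⁻¹ * v) • y) hy.symm (Ne.symm h8) h6.symm hp hty h5)
    have h8 : w⁻¹ * v = 1 := Z.freeU p y hy _ hsU h7
    apply Subtype.ext
    show v = w
    rw [inv_mul_eq_one] at h8
    exact h8.symm
  obtain ⟨⟨v, hv⟩, hvu⟩ := Finite.surjective_of_injective hf ⟨u, hu⟩
  refine ⟨v, hv, ?_⟩
  have h1 : v * (t * v⁻¹ * t⁻¹) = u := congrArg Subtype.val hvu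
  rw [← h1]
  group

/-- module Bas -/
theorem ZD.dich (Z : ZD q G O) (hq : 2 ≤ q) {g : G} {p : O} (hp : g • p = p) (hg : g ∉ Z.U p) :
    ∃ y, y ≠ p ∧ g • y = y := by
  obtain ⟨y, hy, -⟩ := exists_third Z hq p p
  have h1 : g • y ≠ p := by
    intro h2
    exact hy (MulAction.injective g (h2.trans hp.symm))
  obtain ⟨u, hu, huy⟩ := Z.exU p y (g • y) hy h1
  have htp : (u⁻¹ * g) • p = p := by
    rw [mul_smul, hp, inv_smul_eq_iff, Z.fixU p u hu]
  have hty : (u⁻¹ * g) • y = y := by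
    rw [mul_smul, inv_smul_eq_iff, huy]
  have ht1 : u⁻¹ * g ≠ 1 := by
    intro h2
    rw [inv_mul_eq_one] at h2
    exact hg (h2 ▸ hu)
  obtain ⟨v, hv, hvt⟩ := Z.lang hy hu htp hty ht1
  have hg' : g = v * (u⁻¹ * g) * v⁻¹ := by rw [hvt]; group
  refine ⟨v • y, ?_, ?_⟩
  · intro h2
    apply hy
    have h3 : v • y = v • p := by rw [h2, Z.fixU p v hv]
    exact MulAction.injective v h3
  · rw [hg', mul_smul, inv_smul_smul, mul_smul, hty]

end

end Pool.Agent.SZQ
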