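import Pool.Agent.SZQ.Defs

/-! Orders of the subgroups `U p`, `Stab p` and of the group (helper43). -/

set_option autoImplicit false

namespace Pool.Agent.SZQ

open Subgroup

section
variable {q : ℕ} {G O : Type} [Group G] [Finite G] [MulAction G O] [Finite O]

private lemma exists_ne2 (Z : ZD q G O) (hq : 2 ≤ q) (x y : O) : ∃ r : O, r ≠ x ∧ r ≠ y := by
  classical
  have := Fintype.ofFinite O
  by_contra hcon
  push Not at hcon
  have h1 : (Finset.univ : Finset O) ⊆ {x, y} := by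
    intro r _
    by_cases hr : r = x
    · simp [hr]
    · simp [hcon r hr]
  have h2 := Finset.card_le_card h1
  have h3 : Fintype.card O = q ^ 2 + 1 := by rw [← Nat.card_eq_fintype_card, Z.cardO]
  rw [Finset.card_univ, h3] at h2
  have h4 : ({x, y} : Finset O).card ≤ 2 := Finset.card_le_two
  have h5 : 4 ≤ q ^ 2 := by nlinarith
  omega

private lemma smul_ne (Z : ZD q G O) {p y : O} (hy : y ≠ p) {u : G} (hu : u • p = p) :
    u • y ≠ p := by
  intro h
  apply hy
  rw [← hu] at h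
  exact MulAction.injective u h

private lemma eq_of_smul (Z : ZD q G O) {p y : O} (hy : y ≠ p) {u u' : G} (hu : u ∈ Z.U p)
    (hu' : u' ∈ Z.U p) (h : u • y = u' • y) : u = u' := by
  have h1 : (u'⁻¹ * u) • y = y := by rw [mul_smul, h, inv_smul_smul]
  have h2 := Z.freeU p y hy (u'⁻¹ * u) ((Z.U p).mul_mem ((Z.U p).inv_mem hu') hu) h1
  exact (inv_mul_eq_one.1 h2).symm

theorem ZD.cardU (Z : ZD q G O) (hq : 2 ≤ q) (p : O) : Nat.card (Z.U p) = q ^ 2 := by
  classical
  obtain ⟨y, hy, -⟩ := exists_ne2 Z hq p p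
  have h1 : Nat.card (Z.U p) = Nat.card {z : O // z ≠ p} := by
    refine Nat.card_congr (Equiv.ofBijective
      (fun u : Z.U p => (⟨(u : G) • y, smul_ne Z hy (Z.fixU p u u.2)⟩ : {z : O // z ≠ p})) ⟨?_, ?_⟩)
    · intro u u' h
      have h2 : (u : G) • y = (u' : G) • y := congrArg Subtype.val h
      exact Subtype.ext (eq_of_smul Z hy u.2 u'.2 h2)
    · rintro ⟨z, hz⟩
      obtain ⟨u, hu, huz⟩ := Z.exU p y z hy hz
      exact ⟨⟨u, hu⟩, Subtype.ext huz⟩
  have := Fintype.ofFinite O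
  rw [h1, Nat.card_eq_fintype_card, Fintype.card_subtype_compl, Fintype.card_subtype_eq,
    ← Nat.card_eq_fintype_card, Z.cardO]
  omega

theorem ZD.cardStab (Z : ZD q G O) (hq : 2 ≤ q) (p : O) :
    Nat.card (MulAction.stabilizer G p) = q ^ 2 * (q - 1) := by
  obtain ⟨y, hy, -⟩ := exists_ne2 Z hq p p
  obtain ⟨h, hp, hhy, ho, hT⟩ := Z.tor p y hy.symm
  have hz : ∀ t ∈ zpowers h, t • p = p ∧ t • y = y := by
    intro t ht
    have h1 : zpowers h ≤ MulAction.stabilizer G p := by
      rw [zpowers_le]; exact hp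
    have h2 : zpowers h ≤ MulAction.stabilizer G y := by
      rw [zpowers_le]; exact hhy
    exact ⟨h1 ht, h2 ht⟩
  have hcard : Nat.card (Z.U p × zpowers h) = Nat.card (MulAction.stabilizer G p) := by
    refine Nat.card_congr (Equiv.ofBijective
      (fun a : Z.U p × zpowers h => (⟨(a.1 : G) * (a.2 : G), by
        rw [MulAction.mem_stabilizer_iff, mul_smul, (hz a.2 a.2.2).1, Z.fixU p a.1 a.1.2]⟩ :
          MulAction.stabilizer G p)) ⟨?_, ?_⟩)
    · rintro ⟨⟨u, hu⟩, ⟨t, ht⟩⟩ ⟨⟨u', hu'⟩, ⟨t', ht'⟩⟩ h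
      have h1 : u * t = u' * t' := congrArg Subtype.val h
      have h2 : u • y = u' • y := by
        have h3 := congrArg (fun g : G => g • y) h1
        simpa only [mul_smul, (hz t ht).2, (hz t' ht').2] using h3
      have h4 : u = u' := eq_of_smul Z hy hu hu' h2
      subst h4
      have h5 : t = t' := mul_left_cancel h1
      subst h5
      rfl
    · rintro ⟨g, hg⟩
      rw [MulAction.mem_stabilizer_iff] at hg
      obtain ⟨u, hu, huy⟩ := Z.exU p y (g • y) hy (smul_ne Z hy hg)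
      have h1 : u⁻¹ * g ∈ zpowers h := by
        apply hT
        · rw [mul_smul, hg, inv_smul_eq_iff, Z.fixU p u hu]
        · rw [mul_smul, inv_smul_eq_iff, huy]
      exact ⟨(⟨u, hu⟩, ⟨_, h1⟩), Subtype.ext (mul_inv_cancel_left u g)⟩
  rw [← hcard, Nat.card_prod, ZD.cardU Z hq p, Nat.card_zpowers, ho]

theorem ZD.cardG (Z : ZD q G O) (hq : 2 ≤ q) : Nat.card G = (q ^ 2 + 1) * (q ^ 2 * (q - 1)) := by
  have hne : Nonempty O := by
    by_contra h
    rw [not_nonempty_iff] at h
    have := Z.cardO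
    rw [Nat.card_of_isEmpty] at this
    omega
  obtain ⟨p⟩ := hne
  have htr : MulAction.orbit G p = Set.univ := by
    ext x
    simp only [Set.mem_univ, iff_true]
    obtain ⟨r, hr, hr'⟩ := exists_ne2 Z hq p x
    obtain ⟨u, -, hu⟩ := Z.exU r p x hr.symm hr'.symm
    exact ⟨u, hu⟩
  have h1 := (MulAction.stabilizer G p).card_mul_index
  rw [MulAction.index_stabilizer, htr, Set.ncard_univ, Z.cardO, ZD.cardStab Z hq p] at h1
  rw [← h1, mul_comm]

end

end Pool.Agent.SZQ
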