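import Pool.Agent.SZQ.Bas
import Pool.Agent.SZQ.Crd
import Pool.Agent.SLN.TwoT

/-! Module Bor: the action on the ovoid (helper87). -/

set_option autoImplicit false

namespace Pool.Agent.SZQ

open Subgroup

variable {q : ℕ} {G O : Type} [Group G] [Finite G] [MulAction G O] [Finite O]

theorem ZD.bor (Z : ZD q G O) (hq : 8 ≤ q) (g : G) :
    ∃ x y : G, (∀ p : O, x • p ≠ p) ∧ (∀ p : O, y • p ≠ p) ∧ x * y = g := by
  classical
  have hO : 3 ≤ Nat.card O := by
    rw [Z.cardO]
    nlinarith
  have hne : Nonempty O := by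
    by_contra hcon
    rw [not_nonempty_iff] at hcon
    rw [Nat.card_of_isEmpty] at hO
    omega
  obtain ⟨p⟩ := hne
  refine (SLN.two_trans (G := G) (Ω := O)
    (fun a b c d hab hcd => Z.two (by omega) hab hcd) hO).2.2.1 ⟨p, ?_⟩ g
  -- the stabiliser is covered by `U p` and the elements which fix another point
  have h1 : Nat.card {k : G // k • p = p} = q ^ 2 * (q - 1) := by
    rw [← Z.cardStab (by omega) p]
    exact Nat.card_congr (Equiv.subtypeEquivRight fun k => MulAction.mem_stabilizer_iff.symm)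
  have h2 : Nat.card {k : G // k • p = p} ≤
      Nat.card {k : G // k • p = p ∧ ∃ b : O, b ≠ p ∧ k • b = b} + Nat.card (Z.U p) := by
    rw [← Nat.card_sum]
    let f : {k : G // k • p = p} → {k : G // k • p = p ∧ ∃ b : O, b ≠ p ∧ k • b = b} ⊕ Z.U p :=
      fun k => if h : k.1 ∈ Z.U p then Sum.inr ⟨k.1, h⟩ else
        Sum.inl ⟨k.1, k.2, Z.dich (by omega) k.2 h⟩
    refine Nat.card_le_card_of_injective f fun k k' hkk => ?_
    by_cases h : k.1 ∈ Z.U p
    · by_cases h' : k'.1 ∈ Z.U p
      · simp only [f, dif_pos h, dif_pos h'] at hkk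
        have h3 := Sum.inr.inj hkk
        exact Subtype.ext (congrArg (fun z : Z.U p => z.1) h3)
      · simp only [f, dif_pos h, dif_neg h'] at hkk
        exact absurd hkk (by simp)
    · by_cases h' : k'.1 ∈ Z.U p
      · simp only [f, dif_neg h, dif_pos h'] at hkk
        exact absurd hkk (by simp)
      · simp only [f, dif_neg h, dif_neg h'] at hkk
        have h3 := Sum.inl.inj hkk
        exact Subtype.ext (congrArg
          (fun z : {k : G // k • p = p ∧ ∃ b : O, b ≠ p ∧ k • b = b} => z.1) h3)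
  rw [Z.cardU (by omega) p, h1] at h2
  rw [h1]
  obtain ⟨r, rfl⟩ : ∃ r, q = r + 1 := ⟨q - 1, by omega⟩
  rw [Nat.add_sub_cancel] at h2 ⊢
  have h3 : 2 * (r + 1) ^ 2 < (r + 1) ^ 2 * r := by
    have h4 : 0 < (r + 1) ^ 2 := by positivity
    nlinarith
  omega

end Pool.Agent.SZQ
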