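import Pool.Agent.SZQ.Defs

/-! Module Cnt of SZQ (helper42): for `g a = c`, `c ≠ a`, there are `q + 1` points `b` with `g` in
`U_b U_a`. -/

set_option autoImplicit false

namespace Pool.Agent.SZQ

open Subgroup

section
variable {q : ℕ} {G O : Type} [Group G] [Finite G] [MulAction G O] [Finite O]

omit [Finite G] [Finite O] in
private theorem cnt_fix {a : O} {h : G} (ha : h • a = a) {t : G} (ht : t ∈ zpowers h) :
    t • a = a := by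
  have h1 : zpowers h ≤ MulAction.stabilizer G a := by
    rw [zpowers_le]
    exact ha
  exact h1 ht

omit [Finite G] in
private theorem cnt_comm {h s t : G} (hs : s ∈ zpowers h) (ht : t ∈ zpowers h) :
    s * t = t * s := by
  obtain ⟨m, rfl⟩ := mem_zpowers_iff.1 hs
  obtain ⟨n, rfl⟩ := mem_zpowers_iff.1 ht
  exact zpow_mul_comm h m n

omit [Finite G] [Finite O] in
private theorem ZD.cnt_conj (Z : ZD q G O) {g h : G} {a c : O} (hg : g • a = c) (hc : c ≠ a)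
    (ha : h • a = a) (hc' : h • c = c)
    (hT : ∀ x : G, x • a = a → x • c = c → x ∈ zpowers h) {s : G} (hs : s ∈ zpowers h) :
    g⁻¹ * s⁻¹ * g * s⁻¹ ∈ Z.U a := by
  obtain ⟨w, hwa, hwc, hw⟩ := Z.inv a c hc.symm
  have hsa := cnt_fix ha hs
  have hsc := cnt_fix hc' hs
  have hb : (g⁻¹ * w⁻¹) • a = a := by
    rw [mul_smul, inv_smul_eq_iff.2 hwc.symm, inv_smul_eq_iff]
    exact hg.symm
  have hbc : (g⁻¹ * w⁻¹) • c ≠ a := by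
    intro h1
    apply hc
    exact MulAction.injective (g⁻¹ * w⁻¹) (h1.trans hb.symm)
  obtain ⟨u, hu, huc⟩ := Z.exU a c ((g⁻¹ * w⁻¹) • c) hc hbc
  have ht : u⁻¹ * (g⁻¹ * w⁻¹) ∈ zpowers h := by
    apply hT
    · rw [mul_smul, hb, inv_smul_eq_iff]
      exact (Z.fixU a u hu).symm
    · rw [mul_smul, ← huc, inv_smul_smul]
  obtain ⟨t, ht0⟩ : ∃ t, t = u⁻¹ * (g⁻¹ * w⁻¹) := ⟨_, rfl⟩
  rw [← ht0] at ht
  have e1 : g⁻¹ = u * t * w := by rw [ht0]; group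
  have e2 : w * s⁻¹ * w⁻¹ = s := by
    have h1 := hw s hsa hsc
    have h2 : w * s⁻¹ * w⁻¹ = (w * s * w⁻¹)⁻¹ := by group
    rw [h2, h1, inv_inv]
  have e3 : t * s * t⁻¹ = s := by
    rw [cnt_comm ht hs]
    group
  have e4 : g⁻¹ * s⁻¹ * g * s⁻¹ = u * (s * u⁻¹ * s⁻¹) := by
    calc g⁻¹ * s⁻¹ * g * s⁻¹ = g⁻¹ * s⁻¹ * (g⁻¹)⁻¹ * s⁻¹ := by rw [inv_inv]
      _ = u * (t * (w * s⁻¹ * w⁻¹) * t⁻¹) * u⁻¹ * s⁻¹ := by rw [e1]; group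
      _ = u * s * u⁻¹ * s⁻¹ := by rw [e2, e3]
      _ = u * (s * u⁻¹ * s⁻¹) := by group
  rw [e4]
  refine (Z.U a).mul_mem hu ?_
  have h3 := Z.conjU s a u⁻¹ ((Z.U a).inv_mem hu)
  rwa [hsa] at h3

omit [Finite G] [Finite O] in
private theorem ZD.cnt_shift (Z : ZD q G O) {g h : G} {a c b : O} (hg : g • a = c) (hc : c ≠ a)
    (ha : h • a = a) (hc' : h • c = c)
    (hT : ∀ x : G, x • a = a → x • c = c → x ∈ zpowers h) {s t : G} (hs : s ∈ zpowers h)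
    (ht : t ∈ zpowers h) (hR : ∃ v ∈ Z.U b, v⁻¹ * g * t⁻¹ ∈ Z.U a) :
    ∃ v ∈ Z.U (s • b), v⁻¹ * g * (s * s * t)⁻¹ ∈ Z.U a := by
  obtain ⟨v, hv, hu⟩ := hR
  refine ⟨s * v * s⁻¹, Z.conjU s b v hv, ?_⟩
  have hcm : s⁻¹ * t⁻¹ = t⁻¹ * s⁻¹ :=
    cnt_comm ((zpowers h).inv_mem hs) ((zpowers h).inv_mem ht)
  have key : (s * v * s⁻¹)⁻¹ * g * (s * s * t)⁻¹ =
      (s * (v⁻¹ * g * t⁻¹) * s⁻¹) * ((s * t) * (g⁻¹ * s⁻¹ * g * s⁻¹) * (s * t)⁻¹) := by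
    calc (s * v * s⁻¹)⁻¹ * g * (s * s * t)⁻¹ = s * v⁻¹ * s⁻¹ * g * (t⁻¹ * s⁻¹) * s⁻¹ := by group
      _ = s * v⁻¹ * s⁻¹ * g * (s⁻¹ * t⁻¹) * s⁻¹ := by rw [hcm]
      _ = (s * (v⁻¹ * g * t⁻¹) * s⁻¹) * ((s * t) * (g⁻¹ * s⁻¹ * g * s⁻¹) * (s * t)⁻¹) := by
        group
  rw [key]
  refine (Z.U a).mul_mem ?_ ?_
  · have h3 := Z.conjU s a _ hu
    rwa [cnt_fix ha hs] at h3
  · have h3 := Z.conjU (s * t) a _ (Z.cnt_conj hg hc ha hc' hT hs)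
    rwa [cnt_fix ha ((zpowers h).mul_mem hs ht)] at h3

omit [Finite G] [Finite O] in
private theorem ZD.cnt_uniq (Z : ZD q G O) {g h : G} {a c b : O} (hg : g • a = c) (hc : c ≠ a)
    (ha : h • a = a) (hc' : h • c = c) (hb : b ≠ a) {t t' : G} (ht : t ∈ zpowers h)
    (ht' : t' ∈ zpowers h) (hR : ∃ v ∈ Z.U b, v⁻¹ * g * t⁻¹ ∈ Z.U a)
    (hR' : ∃ v ∈ Z.U b, v⁻¹ * g * t'⁻¹ ∈ Z.U a) : t = t' := by
  have hva : ∀ v ∈ Z.U b, ∀ x ∈ zpowers h, v⁻¹ * g * x⁻¹ ∈ Z.U a → v • a = c := by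
    intro v _ x hx hu
    have h1 := Z.fixU a _ hu
    rw [mul_smul, cnt_fix ha ((zpowers h).inv_mem hx), mul_smul, hg, inv_smul_eq_iff] at h1
    exact h1.symm
  obtain ⟨v, hv, hu⟩ := hR
  obtain ⟨v', hv', hu'⟩ := hR'
  have h1 := hva v hv t ht hu
  have h2 := hva v' hv' t' ht' hu'
  have h3 : v'⁻¹ * v = 1 := by
    apply Z.freeU b a hb.symm _ ((Z.U b).mul_mem ((Z.U b).inv_mem hv') hv)
    rw [mul_smul, h1, inv_smul_eq_iff, h2]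
  have h4 : v = v' := by
    have h5 : v' * (v'⁻¹ * v) = v' * 1 := by rw [h3]
    rwa [mul_inv_cancel_left, mul_one] at h5
  subst h4
  have h6 : (v⁻¹ * g * t⁻¹)⁻¹ * (v⁻¹ * g * t'⁻¹) ∈ Z.U a :=
    (Z.U a).mul_mem ((Z.U a).inv_mem hu) hu'
  have h7 : (v⁻¹ * g * t⁻¹)⁻¹ * (v⁻¹ * g * t'⁻¹) = t * t'⁻¹ := by group
  rw [h7] at h6
  have h8 := Z.freeU a c hc _ h6
    (cnt_fix hc' ((zpowers h).mul_mem ht ((zpowers h).inv_mem ht')))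
  exact mul_inv_eq_one.1 h8

omit [Finite G] [Finite O] in
private theorem ZD.cnt_ex (Z : ZD q G O) {g h : G} {a c b : O} (hg : g • a = c) (hc : c ≠ a)
    (hT : ∀ x : G, x • a = a → x • c = c → x ∈ zpowers h) (hb : b ≠ a) (hbc : b ≠ c) :
    ∃ t ∈ zpowers h, ∃ v ∈ Z.U b, v⁻¹ * g * t⁻¹ ∈ Z.U a := by
  obtain ⟨v, hv, hva⟩ := Z.exU b a c hb.symm hbc.symm
  have hr : (v⁻¹ * g) • a = a := by
    rw [mul_smul, hg, inv_smul_eq_iff, hva]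
  have hrc : (v⁻¹ * g) • c ≠ a := by
    intro h1
    exact hc (MulAction.injective (v⁻¹ * g) (h1.trans hr.symm))
  obtain ⟨u, hu, huc⟩ := Z.exU a c ((v⁻¹ * g) • c) hc hrc
  refine ⟨u⁻¹ * (v⁻¹ * g), ?_, v, hv, ?_⟩
  · apply hT
    · rw [mul_smul, hr, inv_smul_eq_iff]
      exact (Z.fixU a u hu).symm
    · rw [mul_smul, ← huc, inv_smul_smul]
  · have h1 : v⁻¹ * g * (u⁻¹ * (v⁻¹ * g))⁻¹ = u := by group
    rw [h1]
    exact hu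

omit [Finite G] in
/-- module Cnt -/
theorem ZD.cnt (Z : ZD q G O) (hq : 8 ≤ q) (he : Even q) {g : G} {a c : O} (hg : g • a = c)
    (hc : c ≠ a) :
    Nat.card {b : O // b ≠ a ∧ b ≠ c ∧ ∃ u ∈ Z.U b, u⁻¹ * g ∈ Z.U a} = q + 1 := by
  obtain ⟨h, ha, hc', ho, hT⟩ := Z.tor a c hc.symm
  have hsq : ∀ t ∈ zpowers h, t ^ (q / 2) * t ^ (q / 2) = t := by
    intro t ht
    obtain ⟨k, hk⟩ := mem_zpowers_iff.1 ht
    have h1 : t ^ (q - 1) = 1 := by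
      rw [← hk, ← zpow_natCast, zpow_comm, zpow_natCast, ← ho, pow_orderOf_eq_one, one_zpow]
    rw [← pow_add]
    have h2 : q / 2 + q / 2 = (q - 1) + 1 := by
      obtain ⟨r, hr⟩ := he
      omega
    rw [h2, pow_succ, h1, one_mul]
  have hmv : ∀ s ∈ zpowers h, ∀ b : O, b ≠ a → b ≠ c → s • b ≠ a ∧ s • b ≠ c := by
    intro s hs b hb hbc
    constructor
    · intro h1
      exact hb (MulAction.injective s (h1.trans (cnt_fix ha hs).symm))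
    · intro h1
      exact hbc (MulAction.injective s (h1.trans (cnt_fix hc' hs).symm))
  have hcard1 : Nat.card {b : O // b ≠ a ∧ b ≠ c} + 2 = q ^ 2 + 1 := by
    have h1 : {b : O | b ≠ a ∧ b ≠ c} = ({a, c} : Set O)ᶜ := by
      ext b
      simp [not_or]
    have h2 := Set.ncard_add_ncard_compl ({a, c} : Set O)
    rw [Set.ncard_pair hc.symm, Z.cardO, ← h1] at h2
    have h3 : Nat.card {b : O // b ≠ a ∧ b ≠ c} = ({b : O | b ≠ a ∧ b ≠ c}).ncard :=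
      Nat.card_coe_set_eq _
    omega
  have hR1 : ∀ b : O, (∃ u ∈ Z.U b, u⁻¹ * g ∈ Z.U a) ↔ ∃ u ∈ Z.U b, u⁻¹ * g * (1 : G)⁻¹ ∈ Z.U a := by
    intro b
    simp only [inv_one, mul_one]
  have hbij : Function.Bijective (fun p : zpowers h ×
      {b : O // b ≠ a ∧ b ≠ c ∧ ∃ u ∈ Z.U b, u⁻¹ * g ∈ Z.U a} =>
      (⟨(p.1.1 ^ (q / 2)) • p.2.1, hmv _ ((zpowers h).pow_mem p.1.2 _) _ p.2.2.1 p.2.2.2.1⟩ :
        {b : O // b ≠ a ∧ b ≠ c})) := by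
    have hR : ∀ t ∈ zpowers h, ∀ b : O, (∃ u ∈ Z.U b, u⁻¹ * g ∈ Z.U a) →
        ∃ v ∈ Z.U ((t ^ (q / 2)) • b), v⁻¹ * g * t⁻¹ ∈ Z.U a := by
      intro t ht b hb
      have h1 := Z.cnt_shift hg hc ha hc' hT ((zpowers h).pow_mem ht (q / 2)) (zpowers h).one_mem
        ((hR1 b).1 hb)
      rwa [mul_one, hsq t ht] at h1
    constructor
    · rintro ⟨⟨t, ht⟩, ⟨b, hb1, hb2, hb3⟩⟩ ⟨⟨t', ht'⟩, ⟨b', hb1', hb2', hb3'⟩⟩ he
      have he' : (t ^ (q / 2)) • b = (t' ^ (q / 2)) • b' := congrArg Subtype.val he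
      have h1 := hR t ht b hb3
      have h2 := hR t' ht' b' hb3'
      rw [← he'] at h2
      have h3 : t = t' := Z.cnt_uniq hg hc ha hc'
        (hmv _ ((zpowers h).pow_mem ht _) b hb1 hb2).1 ht ht' h1 h2
      subst h3
      have h4 : b = b' := MulAction.injective (t ^ (q / 2)) he'
      subst h4
      rfl
    · rintro ⟨b, hb1, hb2⟩
      obtain ⟨t, ht, hR2⟩ := Z.cnt_ex hg hc hT hb1 hb2
      have hs : (t ^ (q / 2))⁻¹ ∈ zpowers h := (zpowers h).inv_mem ((zpowers h).pow_mem ht _)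
      have h1 := Z.cnt_shift hg hc ha hc' hT hs ht hR2
      have h2 : (t ^ (q / 2))⁻¹ * (t ^ (q / 2))⁻¹ * t = 1 := by
        rw [← mul_inv_rev, hsq t ht, inv_mul_cancel]
      rw [h2] at h1
      have h3 := hmv _ hs b hb1 hb2
      refine ⟨⟨⟨t, ht⟩, ⟨(t ^ (q / 2))⁻¹ • b, h3.1, h3.2, (hR1 _).2 h1⟩⟩, ?_⟩
      apply Subtype.ext
      exact smul_inv_smul _ _
  have hcard2 := Nat.card_congr (Equiv.ofBijective _ hbij)
  rw [Nat.card_prod, Nat.card_zpowers, ho] at hcard2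
  obtain ⟨m, rfl⟩ : ∃ m, q = m + 1 := ⟨q - 1, by omega⟩
  have h5 : m + 1 - 1 = m := by omega
  rw [h5] at hcard2
  have h6 : m * Nat.card {b : O // b ≠ a ∧ b ≠ c ∧ ∃ u ∈ Z.U b, u⁻¹ * g ∈ Z.U a} =
      m * (m + 1 + 1) := by
    have h7 : (m + 1) ^ 2 + 1 = m * (m + 1 + 1) + 2 := by ring
    omega
  exact Nat.eq_of_mul_eq_mul_left (by omega) h6

end

end Pool.Agent.SZQ
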