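import Pool.Agent.SZQ.BN
import Pool.Agent.SZQ.Cnt

/-! Bridge: the big cell decomposition `g = k v k⁻¹ u'` in a group with the data `BNd` (helper44). -/

set_option autoImplicit false

namespace Pool.Agent.SZQ

open Subgroup

theorem BNd.zdE {q : ℕ} {G : Type} [Group G] [Finite G] (D : BNd q G) (hq : 8 ≤ q) :
    ∃ Z : ZD q G (G ⧸ D.B), Z.U = D.V := by
  refine ⟨⟨D.V, ?_, ?_, fun p x y hx hy => D.exU' hx hy,
    fun p x hx u hu h => D.freeV hx hu h, D.free', fun x y h => D.tor' h, fun x y h => D.inv' h,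
    D.cardO', D.cardZ', ?_, ?_⟩, rfl⟩
  · intro p u hu
    induction p using QuotientGroup.induction_on with
    | H k =>
      rw [D.mem_V] at hu
      change ((u * k : G) : G ⧸ D.B) = _
      rw [QuotientGroup.eq]
      have h1 : (u * k)⁻¹ * k = (k⁻¹ * u * k)⁻¹ := by group
      rw [h1]
      exact inv_mem (D.U_le hu)
  · intro g p u hu
    induction p using QuotientGroup.induction_on with
    | H k =>
      rw [D.mem_V] at hu
      change g * u * g⁻¹ ∈ D.V ((g * k : G) : G ⧸ D.B)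
      rw [D.mem_V]
      have h1 : (g * k)⁻¹ * (g * u * g⁻¹) * (g * k) = k⁻¹ * u * k := by group
      rw [h1]
      exact hu
  · intro p K v h hv hvK hv2 hK hp ho
    induction p using QuotientGroup.induction_on with
    | H k =>
      rw [D.mem_V] at hv
      have h1 := D.gen0 hq (K.comap (MulAut.conj k).toMonoidHom) (v := k⁻¹ * v * k)
        (h := k⁻¹ * h * k) hv (by
          change k * (k⁻¹ * v * k) * k⁻¹ ∈ K
          have h2 : k * (k⁻¹ * v * k) * k⁻¹ = v := by group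
          rw [h2]
          exact hvK) (by
          intro h2
          apply hv2
          have h3 : v * v = k * (k⁻¹ * v * k * (k⁻¹ * v * k)) * k⁻¹ := by group
          rw [h3, h2]
          group) (by
          change k * (k⁻¹ * h * k) * k⁻¹ ∈ K
          have h2 : k * (k⁻¹ * h * k) * k⁻¹ = h := by group
          rw [h2]
          exact hK) (by
          have h2 : (k : G ⧸ D.B) = ((h * k : G) : G ⧸ D.B) := hp.symm
          rw [QuotientGroup.eq] at h2
          rwa [mul_assoc]) (by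
          rw [← ho]
          have h2 := (MulAut.conj k⁻¹).orderOf_eq h
          rw [MulAut.conj_apply, inv_inv] at h2
          exact h2)
      intro x hx
      rw [D.mem_V] at hx
      have h2 : k * (k⁻¹ * x * k) * k⁻¹ ∈ K := h1 hx
      have h3 : k * (k⁻¹ * x * k) * k⁻¹ = x := by group
      rwa [h3] at h2
  · intro p u hu
    induction p using QuotientGroup.induction_on with
    | H k =>
      rw [D.mem_V] at hu
      obtain ⟨x, hx, y, hy, hx2, hy2, hxy⟩ := D.prod4 _ hu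
      have e1 : ∀ z : G, k⁻¹ * (k * z * k⁻¹) * k = z := fun z => by group
      have e2 : ∀ z : G, z * z ≠ 1 → k * z * k⁻¹ * (k * z * k⁻¹) ≠ 1 := by
        intro z hz h
        apply hz
        have h3 : z * z = k⁻¹ * (k * z * k⁻¹ * (k * z * k⁻¹)) * k := by group
        rw [h3, h]
        group
      refine ⟨k * x * k⁻¹, ?_, k * y * k⁻¹, ?_, e2 x hx2, e2 y hy2, ?_⟩
      · rw [D.mem_V, e1]
        exact hx
      · rw [D.mem_V, e1]
        exact hy
      · have h3 : k * x * k⁻¹ * (k * y * k⁻¹) = k * (x * y) * k⁻¹ := by group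
        rw [h3, hxy]
        group

/-- every `g` outside the opposite Borel subgroup is `k v k⁻¹ u'` -/
theorem BNd.brg0 {q : ℕ} {G : Type} [Group G] [Finite G] (D : BNd q G) (hq : 8 ≤ q) (he : Even q)
    {g : G} (hg : D.w⁻¹ * g * D.w ∉ D.B) :
    ∃ k, D.w⁻¹ * k * D.w ∈ D.U ∧ ∃ v ∈ D.U, ∃ u, D.w⁻¹ * u * D.w ∈ D.U ∧
      g = k * v * k⁻¹ * u := by
  obtain ⟨Z, hZ⟩ := D.zdE hq
  have hfin : Finite (G ⧸ D.B) := inferInstance
  have hne : g • ((D.w : G) : G ⧸ D.B) ≠ ((D.w : G) : G ⧸ D.B) := by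
    intro h
    apply hg
    change ((g * D.w : G) : G ⧸ D.B) = _ at h
    rw [eq_comm, QuotientGroup.eq] at h
    rwa [mul_assoc]
  have hc := Z.cnt hq he (g := g) (a := ((D.w : G) : G ⧸ D.B)) rfl hne
  have hpos : 0 < Nat.card {b : G ⧸ D.B // b ≠ ((D.w : G) : G ⧸ D.B) ∧
      b ≠ g • ((D.w : G) : G ⧸ D.B) ∧ ∃ u ∈ Z.U b, u⁻¹ * g ∈ Z.U ((D.w : G) : G ⧸ D.B)} := by
    rw [hc]; omega
  obtain ⟨⟨b, hb, -, u, hu, hu'⟩⟩ := (Nat.card_pos_iff.1 hpos).1
  have h1 : ((1 : G) : G ⧸ D.B) ≠ ((D.w : G) : G ⧸ D.B) := by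
    intro h
    rw [QuotientGroup.eq] at h
    apply D.w_nB
    simpa using h
  obtain ⟨k, hk, hkb⟩ := D.exU' (p := ((D.w : G) : G ⧸ D.B)) h1 hb
  rw [hZ] at hu hu'
  rw [D.mem_V] at hk hu'
  rw [← hkb] at hu
  change u ∈ D.V ((k * 1 : G) : G ⧸ D.B) at hu
  rw [mul_one, D.mem_V] at hu
  exact ⟨k, hk, k⁻¹ * u * k, hu, u⁻¹ * g, hu', by group⟩

/-- the same with `D.w` instead of its inverse (they are equal) -/
theorem BNd.brg {q : ℕ} {G : Type} [Group G] [Finite G] (D : BNd q G) (hq : 8 ≤ q) (he : Even q)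
    {g : G} (hg : D.w * g * D.w ∉ D.B) :
    ∃ k v u : G, D.w * k * D.w ∈ D.U ∧ v ∈ D.U ∧ D.w * u * D.w ∈ D.U ∧
      g = k * v * k⁻¹ * u := by
  have h1 : D.w⁻¹ * g * D.w ∉ D.B := by rwa [D.winv]
  obtain ⟨k, hk, v, hv, u, hu, h⟩ := D.brg0 hq he h1
  rw [D.winv] at hk hu
  exact ⟨k, v, u, hk, hv, hu, h⟩

end Pool.Agent.SZQ
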