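import Pool.Agent.SZQ.Crd

/-! A subgroup with a full torus and an element of order four and a torus element at the same point (helper43). -/

set_option autoImplicit false

namespace Pool.Agent.SZQ

open Subgroup

section
variable {q : ℕ} {G O : Type} [Group G] [Finite G] [MulAction G O] [Finite O]

/-- the `l`-parts of `|K|` and of `q - 1` are equal -/
private lemma fact_eq {l a b : ℕ} (hl : l.Prime) (hb : b ≠ 0) (hab : a ∣ b) (hq : 8 ≤ q)
    (he : Even q) (hla : l ∣ q - 1) (hqa : q - 1 ∣ a) (hb' : b = (q ^ 2 + 1) * (q ^ 2 * (q - 1))) :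
    a.factorization l = (q - 1).factorization l := by
  have ha : a ≠ 0 := by
    rintro rfl
    exact hb (Nat.eq_zero_of_zero_dvd hab)
  have hq1 : q - 1 ≠ 0 := by omega
  have hodd : ¬ l ∣ 2 := by
    intro h
    have h2 : l = 2 := (Nat.prime_dvd_prime_iff_eq hl Nat.prime_two).1 h
    rw [h2] at hla
    obtain ⟨r, hr⟩ := he
    omega
  have hlq : ¬ l ∣ q := by
    intro h
    have h1 : l ∣ q - (q - 1) := Nat.dvd_sub h hla
    have h2 : q - (q - 1) = 1 := by omega
    rw [h2] at h1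
    exact hl.one_lt.ne' (Nat.dvd_one.1 h1)
  have hlq2 : ¬ l ∣ q ^ 2 := fun h => hlq (hl.dvd_of_dvd_pow h)
  have hlq3 : ¬ l ∣ q ^ 2 + 1 := by
    intro h
    apply hodd
    have h1 : q ^ 2 + 1 = (q - 1) * (q + 1) + 2 := by
      obtain ⟨r, rfl⟩ : ∃ r, q = r + 1 := ⟨q - 1, by omega⟩
      rw [Nat.add_sub_cancel]
      ring
    rw [h1] at h
    exact (Nat.dvd_add_right (Dvd.dvd.mul_right hla _)).1 h
  apply le_antisymm
  · have h1 : a.factorization l ≤ b.factorization l :=
      (Nat.factorization_le_iff_dvd ha hb).2 hab l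
    rw [hb', Nat.factorization_mul (by positivity) (mul_ne_zero (by positivity) hq1),
      Nat.factorization_mul (by positivity) hq1, Finsupp.add_apply, Finsupp.add_apply,
      Nat.factorization_eq_zero_of_not_dvd hlq3, Nat.factorization_eq_zero_of_not_dvd hlq2,
      zero_add, zero_add] at h1
    exact h1
  · exact (Nat.factorization_le_iff_dvd hq1 ha).2 hqa l

/-- an element of `K` of prime order dividing `q - 1` is conjugate in `K` to an element of the torus -/
private lemma conj_torus (Z : ZD q G O) (hq : 8 ≤ q) (he : Even q) (K : Subgroup G) {h t : G}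
    (hh : h ∈ K) (ho : orderOf h = q - 1) (ht : t ∈ K) {l : ℕ} (hl : l.Prime)
    (hlt : orderOf t = l) (hlq : l ∣ q - 1) : ∃ k ∈ K, k * t * k⁻¹ ∈ zpowers h := by
  have : Fact l.Prime := ⟨hl⟩
  set H : Subgroup K := zpowers (⟨h, hh⟩ : K) with hH
  have hHc : Nat.card H = q - 1 := by
    rw [hH, Nat.card_zpowers, ← ho]
    exact Subgroup.orderOf_mk h hh
  have hKd : q - 1 ∣ Nat.card K := by
    rw [← hHc]; exact Subgroup.card_subgroup_dvd_card H
  have hfact : (Nat.card K).factorization l = (q - 1).factorization l :=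
    fact_eq hl Nat.card_pos.ne' (Subgroup.card_subgroup_dvd_card K) hq he hlq hKd
      (ZD.cardG Z (by omega))
  obtain ⟨Q⟩ : Nonempty (Sylow l H) := inferInstance
  have hQc : Nat.card (Q : Subgroup H) = l ^ (q - 1).factorization l := by
    rw [Q.card_eq_multiplicity, hHc]
  have hQc' : Nat.card ((Q : Subgroup H).map H.subtype) = l ^ (Nat.card K).factorization l := by
    rw [hfact, ← hQc]
    exact Nat.card_congr ((Q : Subgroup H).equivMapOfInjective _ H.subtype_injective).symm.toEquiv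
  let P₀ : Sylow l K := Sylow.ofCard ((Q : Subgroup H).map H.subtype) hQc'
  have hP₀ : (P₀ : Subgroup K) ≤ H := by
    intro a ha
    have ha' : a ∈ (Q : Subgroup H).map H.subtype := ha
    obtain ⟨b, -, rfl⟩ := ha'
    exact b.2
  have hpg : IsPGroup l (zpowers (⟨t, ht⟩ : K)) := by
    apply IsPGroup.of_card (n := 1)
    rw [Nat.card_zpowers, pow_one, ← hlt]
    exact Subgroup.orderOf_mk t ht
  obtain ⟨R, hR⟩ := hpg.exists_le_sylow
  obtain ⟨k, hk⟩ := MulAction.exists_smul_eq K R P₀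
  have h1 : (⟨t, ht⟩ : K) ∈ (R : Subgroup K) := hR (mem_zpowers _)
  have h2 : MulAut.conj k • (⟨t, ht⟩ : K) ∈ (P₀ : Subgroup K) := by
    rw [← hk, Sylow.coe_subgroup_smul]
    exact Subgroup.smul_mem_pointwise_smul _ _ _ h1
  have h3 := hP₀ h2
  rw [hH] at h3
  obtain ⟨i, hi⟩ := h3
  refine ⟨k, k.2, i, ?_⟩
  have h4 := congrArg Subtype.val hi
  exact h4

theorem ZD.clA (Z : ZD q G O) (hq : 8 ≤ q) (he : Even q) (K : Subgroup G) {h v t : G} {x y p z : O}
    (hh : h ∈ K) (hxy : x ≠ y) (hx : h • x = x) (hy : h • y = y) (ho : orderOf h = q - 1)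
    (hv : v ∈ K) (hvp : v ∈ Z.U p) (hv2 : v * v ≠ 1)
    (ht : t ∈ K) (ht1 : t ≠ 1) (htp : t • p = p) (hzp : z ≠ p) (htz : t • z = z) :
    MulAction.stabilizer G p ≤ K := by
  -- a power of `t` of prime order
  have hfin : IsOfFinOrder t := isOfFinOrder_of_finite t
  have hot : orderOf t ≠ 1 := fun h => ht1 (orderOf_eq_one_iff.1 h)
  obtain ⟨l, hl, hlt⟩ := Nat.exists_prime_and_dvd hot
  obtain ⟨h₀, -, -, ho₀, hT₀⟩ := Z.tor p z hzp.symm
  have hlq : l ∣ q - 1 := by
    have h1 : t ∈ zpowers h₀ := hT₀ t htp htz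
    rw [← ho₀]
    exact hlt.trans (orderOf_dvd_of_mem_zpowers h1)
  set t₁ : G := t ^ (orderOf t / l) with ht₁
  have ho1 : orderOf t₁ = l := orderOf_pow_orderOf_div hfin.orderOf_pos.ne' hlt
  have ht₁K : t₁ ∈ K := K.pow_mem ht _
  have ht₁p : t₁ • p = p := by
    have h1 : t ∈ MulAction.stabilizer G p := htp
    exact (MulAction.stabilizer G p).pow_mem h1 _
  have ht₁1 : t₁ ≠ 1 := by
    intro h
    rw [h, orderOf_one] at ho1
    exact hl.one_lt.ne ho1
  obtain ⟨k, hkK, hk⟩ := conj_torus Z hq he K hh ho ht₁K hl ho1 hlq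
  have hfix : ∀ s ∈ zpowers h, s • x = x ∧ s • y = y := by
    intro s hs
    have h1 : zpowers h ≤ MulAction.stabilizer G x := by rw [zpowers_le]; exact hx
    have h2 : zpowers h ≤ MulAction.stabilizer G y := by rw [zpowers_le]; exact hy
    exact ⟨h1 hs, h2 hs⟩
  have hkp : k • p = x ∨ k • p = y := by
    by_contra hcon
    push Not at hcon
    have h1 := Z.free (k * t₁ * k⁻¹) x y (k • p) hxy hcon.2.symm hcon.1.symm (hfix _ hk).1
      (hfix _ hk).2 (by rw [mul_smul, mul_smul, inv_smul_smul, ht₁p])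
    apply ht₁1
    have h2 : t₁ = k⁻¹ * (k * t₁ * k⁻¹) * k := by group
    rw [h2, h1]; group
  -- the torus at `p`
  obtain ⟨y', hy'p, hy'⟩ : ∃ y', y' ≠ p ∧ h • (k • y') = k • y' := by
    rcases hkp with h1 | h1
    · refine ⟨k⁻¹ • y, ?_, by rw [smul_inv_smul, hy]⟩
      intro h2
      apply hxy
      rw [← h1, ← h2, smul_inv_smul]
    · refine ⟨k⁻¹ • x, ?_, by rw [smul_inv_smul, hx]⟩
      intro h2
      apply hxy
      rw [← h1, ← h2, smul_inv_smul]
  have hhp : h • (k • p) = k • p := by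
    rcases hkp with h1 | h1
    · rw [h1, hx]
    · rw [h1, hy]
  set h' : G := k⁻¹ * h * k with hh'
  have hh'K : h' ∈ K := K.mul_mem (K.mul_mem (K.inv_mem hkK) hh) hkK
  have hh'p : h' • p = p := by
    rw [hh', mul_smul, mul_smul, hhp, inv_smul_smul]
  have hh'y : h' • y' = y' := by
    rw [hh', mul_smul, mul_smul, hy', inv_smul_smul]
  have ho' : orderOf h' = q - 1 := by
    rw [← ho]
    have h1 : h' = MulAut.conj k⁻¹ h := by
      rw [hh', MulAut.conj_apply, inv_inv]
    rw [h1]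
    exact MulEquiv.orderOf_eq (MulAut.conj k⁻¹) h
  have hU : Z.U p ≤ K := Z.gen4 p K v h' hvp hv hv2 hh'K hh'p ho'
  obtain ⟨h₁, h₁p, h₁y, ho₁, hT₁⟩ := Z.tor p y' hy'p.symm
  have hle : zpowers h' ≤ zpowers h₁ := by
    rw [zpowers_le]
    exact hT₁ h' hh'p hh'y
  have heq : zpowers h' = zpowers h₁ := by
    apply Subgroup.eq_of_le_of_card_ge hle
    rw [Nat.card_zpowers, Nat.card_zpowers, ho', ho₁]
  intro g hg
  rw [MulAction.mem_stabilizer_iff] at hg
  have hgy : g • y' ≠ p := by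
    intro h2
    apply hy'p
    rw [← hg] at h2
    exact MulAction.injective g h2
  obtain ⟨u, hu, huy⟩ := Z.exU p y' (g • y') hy'p hgy
  have h1 : u⁻¹ * g ∈ zpowers h₁ := by
    apply hT₁
    · rw [mul_smul, hg, inv_smul_eq_iff, Z.fixU p u hu]
    · rw [mul_smul, inv_smul_eq_iff, huy]
  rw [← heq] at h1
  have h2 : u⁻¹ * g ∈ K := (zpowers_le.2 hh'K) h1
  have h3 : g = u * (u⁻¹ * g) := by group
  rw [h3]
  exact K.mul_mem (hU hu) h2

end

end Pool.Agent.SZQ
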