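import Pool.Agent.SZQ.Defs
import Pool.Agent.SZQ.Bas

/-!
# SZQ / ClB (helper30)

A subgroup `K` with a full torus and an element `v` of some `U p`, `v ^ 2 ≠ 1`, in which no `t ≠ 1` fixes `p` and a
second point, does not exist: the conjugates of the elements of `K ∩ U p` are at least `2 / 3` of `K`, and those
with exactly two fixed points at least `(q - 2) / (2 (q - 1))`.
-/

set_option autoImplicit false

namespace Pool.Agent.SZQ

open Subgroup

variable {q : ℕ} {G O : Type} [Group G] [Finite G] [MulAction G O] [Finite O]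

open Classical in
theorem ZD.clB (Z : ZD q G O) (hq : 8 ≤ q) (K : Subgroup G) {h v : G} {x y p : O}
    (hh : h ∈ K) (hxy : x ≠ y) (hx : h • x = x) (hy : h • y = y) (ho : orderOf h = q - 1)
    (hv : v ∈ K) (hvp : v ∈ Z.U p) (hv2 : v * v ≠ 1)
    (hno : ∀ t ∈ K, t • p = p → ∀ z, z ≠ p → t • z = z → t = 1) : False := by
  have : Fintype G := Fintype.ofFinite G
  have : Fintype O := Fintype.ofFinite O
  have hq2 : 2 ≤ q := by omega
  -- the sets
  let Kf : Finset G := Finset.univ.filter fun g => g ∈ K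
  let Pf : Finset G := Finset.univ.filter fun g => g ∈ K ∧ g • p = p
  let Xf : Finset G := Finset.univ.filter fun g => g ∈ K ∧ g • x = x
  let Vf : Finset G := Finset.univ.filter fun g => g ∈ K ∧ g ∈ Z.U x
  let S1 : Finset G := Finset.univ.filter fun g => g ∈ K ∧ g ≠ 1 ∧ ∃ z, g ∈ Z.U z
  let S2 : Finset G := Finset.univ.filter fun g => g ∈ K ∧ g ≠ 1 ∧ ∃ z, g • z = z ∧ g ∉ Z.U z
  have mK : ∀ g, g ∈ Kf ↔ g ∈ K := fun g => by simp [Kf]
  have mP : ∀ g, g ∈ Pf ↔ g ∈ K ∧ g • p = p := fun g => by simp [Pf]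
  have mX : ∀ g, g ∈ Xf ↔ g ∈ K ∧ g • x = x := fun g => by simp [Xf]
  have mV : ∀ g, g ∈ Vf ↔ g ∈ K ∧ g ∈ Z.U x := fun g => by simp [Vf]
  have mS1 : ∀ g, g ∈ S1 ↔ g ∈ K ∧ g ≠ 1 ∧ ∃ z, g ∈ Z.U z := fun g => by simp [S1]
  have mS2 : ∀ g, g ∈ S2 ↔ g ∈ K ∧ g ≠ 1 ∧ ∃ z, g • z = z ∧ g ∉ Z.U z := fun g => by simp [S2]
  -- conjugation by an inverse
  have conj' : ∀ (k g : G) (z : O), k * g * k⁻¹ ∈ Z.U (k • z) → g ∈ Z.U z := by
    intro k g z h1
    have h2 := Z.conjU k⁻¹ (k • z) _ h1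
    rw [inv_smul_smul] at h2
    have e : k⁻¹ * (k * g * k⁻¹) * k⁻¹⁻¹ = g := by group
    rwa [e] at h2
  have fixc : ∀ (k g : G) (z : O), g • z = z → (k * g * k⁻¹) • (k • z) = k • z := by
    intro k g z h1
    rw [smul_smul, inv_mul_cancel_right, mul_smul, h1]
  -- the elements of `K` fixing `p`
  have hPU : ∀ g ∈ K, g • p = p → g ∈ Z.U p := by
    intro g hg hgp
    by_contra hn
    obtain ⟨z, hz, hgz⟩ := Z.dich hq2 hgp hn
    have h1 := hno g hg hgp z hz hgz
    rw [h1] at hn
    exact hn (Z.U p).one_mem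
  -- disjointness
  have hsum : S1.card + S2.card ≤ Kf.card := by
    rw [← Finset.card_union_of_disjoint]
    · apply Finset.card_le_card
      intro g hg
      rw [Finset.mem_union, mS1, mS2] at hg
      rw [mK]
      rcases hg with hg | hg
      · exact hg.1
      · exact hg.1
    · rw [Finset.disjoint_left]
      intro g h1 h2
      rw [mS1] at h1
      rw [mS2] at h2
      obtain ⟨_, h3, z, hz⟩ := h1
      obtain ⟨_, _, z', hz', hz''⟩ := h2
      have hne : z' ≠ z := by
        rintro rfl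
        exact hz'' hz
      exact h3 (Z.freeU z z' hne g hz hz')
  -- at least three elements
  have hP3 : 3 ≤ Pf.card := by
    have hv1 : v ≠ 1 := by
      rintro rfl
      exact hv2 (one_mul 1)
    have hvv : v * v ≠ v := by
      intro h1
      apply hv1
      have := mul_eq_left.1 h1
      exact this
    have h1 : ({1, v, v * v} : Finset G) ⊆ Pf := by
      intro g hg
      rw [mP]
      simp only [Finset.mem_insert, Finset.mem_singleton] at hg
      have hvfix := Z.fixU p v hvp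
      rcases hg with rfl | rfl | rfl
      · exact ⟨K.one_mem, one_smul _ _⟩
      · exact ⟨hv, hvfix⟩
      · exact ⟨K.mul_mem hv hv, by rw [mul_smul, hvfix, hvfix]⟩
    have h2 : ({1, v, v * v} : Finset G).card = 3 := by
      rw [Finset.card_insert_of_notMem, Finset.card_insert_of_notMem, Finset.card_singleton]
      · rw [Finset.mem_singleton]
        exact fun h => hvv h.symm
      · rw [Finset.mem_insert, Finset.mem_singleton]
        rintro (h | h)
        · exact hv1 h.symm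
        · exact hv2 h.symm
    rw [← h2]
    exact Finset.card_le_card h1
  -- first count
  have hc1 : Kf.card * (Pf.card - 1) ≤ Pf.card * S1.card := by
    have hm : ∀ a ∈ Kf ×ˢ (Pf.erase 1), a.1 * a.2 * a.1⁻¹ ∈ S1 := by
      rintro ⟨k, u⟩ ha
      rw [Finset.mem_product, mK, Finset.mem_erase, mP] at ha
      obtain ⟨hk, hu1, huK, hup⟩ := ha
      rw [mS1]
      refine ⟨K.mul_mem (K.mul_mem hk huK) (K.inv_mem hk), ?_, k • p, Z.conjU k p u (hPU u huK hup)⟩
      intro h1
      apply hu1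
      exact conj_eq_one_iff.1 h1
    have hf : ∀ b ∈ S1, ((Kf ×ˢ (Pf.erase 1)).filter fun a => a.1 * a.2 * a.1⁻¹ = b).card ≤ Pf.card := by
      intro b hb
      rw [mS1] at hb
      obtain ⟨_, hb1, z, hz⟩ := hb
      rcases Finset.eq_empty_or_nonempty
        ((Kf ×ˢ (Pf.erase 1)).filter fun a => a.1 * a.2 * a.1⁻¹ = b) with he | ⟨⟨k0, u0⟩, h0⟩
      · rw [he, Finset.card_empty]
        exact Nat.zero_le _
      have hkz : ∀ k u, (k, u) ∈ (Kf ×ˢ (Pf.erase 1)).filter (fun a => a.1 * a.2 * a.1⁻¹ = b) →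
          k ∈ K ∧ k • p = z ∧ u = k⁻¹ * b * k := by
        intro k u hku
        rw [Finset.mem_filter, Finset.mem_product, mK, Finset.mem_erase, mP] at hku
        obtain ⟨⟨hk, hu1, huK, hup⟩, hb'⟩ := hku
        refine ⟨hk, ?_, ?_⟩
        · by_contra hne
          apply hb1
          refine Z.freeU z (k • p) hne b hz ?_
          rw [← hb']
          exact fixc k u p hup
        · rw [← hb']
          group
      obtain ⟨hk0, hk0z, _⟩ := hkz k0 u0 h0
      refine Finset.card_le_card_of_injOn (fun a => k0⁻¹ * a.1) ?_ ?_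
      · rintro ⟨k, u⟩ hku
        obtain ⟨hk, hkz', _⟩ := hkz k u hku
        show k0⁻¹ * k ∈ (Pf : Set G)
        rw [Finset.mem_coe, mP]
        exact ⟨K.mul_mem (K.inv_mem hk0) hk, by rw [mul_smul, hkz', ← hk0z, inv_smul_smul]⟩
      · rintro ⟨k, u⟩ hku ⟨k', u'⟩ hku' heq
        obtain ⟨_, _, hu⟩ := hkz k u hku
        obtain ⟨_, _, hu'⟩ := hkz k' u' hku'
        have h1 : k = k' := mul_left_cancel heq
        rw [hu, hu', h1]
    have h1 := Finset.card_le_mul_card_image_of_maps_to hm Pf.card hf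
    rw [Finset.card_product, Finset.card_erase_of_mem (by rw [mP]; exact ⟨K.one_mem, one_smul _ _⟩)] at h1
    exact h1
  -- second count
  have hVX : (q - 1) * Vf.card ≤ Xf.card := by
    have h1 : ((Finset.range (q - 1)) ×ˢ Vf).card = (q - 1) * Vf.card := by
      rw [Finset.card_product, Finset.card_range]
    rw [← h1]
    have hpx : ∀ i : ℕ, (h ^ i) • x = x := by
      intro i
      induction i with
      | zero => rw [pow_zero, one_smul]
      | succ i ih => rw [pow_succ, mul_smul, hx, ih]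
    have hpy : ∀ i : ℕ, (h ^ i) • y = y := by
      intro i
      induction i with
      | zero => rw [pow_zero, one_smul]
      | succ i ih => rw [pow_succ, mul_smul, hy, ih]
    refine Finset.card_le_card_of_injOn (fun a => a.2 * h ^ a.1) ?_ ?_
    · rintro ⟨i, u⟩ ha
      rw [Finset.mem_coe, Finset.mem_product, mV] at ha
      show u * h ^ i ∈ (Xf : Set G)
      rw [Finset.mem_coe, mX]
      refine ⟨K.mul_mem ha.2.1 (K.pow_mem hh i), ?_⟩
      rw [mul_smul, hpx i]
      exact Z.fixU x u ha.2.2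
    · rintro ⟨i, u⟩ ha ⟨j, w⟩ hb heq
      rw [Finset.mem_coe, Finset.mem_product, mV, Finset.mem_range] at ha hb
      have heq' : u * h ^ i = w * h ^ j := heq
      have h2 : u • y = w • y := by
        have h3 := congrArg (fun g : G => g • y) heq'
        simp only [mul_smul, hpy] at h3
        exact h3
      have h4 : w⁻¹ * u = 1 := by
        refine Z.freeU x y (Ne.symm hxy) _ ((Z.U x).mul_mem ((Z.U x).inv_mem hb.2.2) ha.2.2) ?_
        rw [mul_smul, h2, inv_smul_smul]
      have h5 : u = w := (inv_mul_eq_one.1 h4).symm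
      rw [h5] at heq'
      have h6 : h ^ i = h ^ j := mul_left_cancel heq'
      have h7 : i = j := pow_injOn_Iio_orderOf (x := h) (by rw [Set.mem_Iio, ho]; exact ha.1)
        (by rw [Set.mem_Iio, ho]; exact hb.1) h6
      rw [h5, h7]
  have hVsub : Vf ⊆ Xf := by
    intro g hg
    rw [mV] at hg
    rw [mX]
    exact ⟨hg.1, Z.fixU x g hg.2⟩
  have hQ : (Xf \ Vf).card + Vf.card = Xf.card := Finset.card_sdiff_add_card_eq_card hVsub
  have hc2 : Kf.card * (Xf \ Vf).card ≤ (Xf.card * 2) * S2.card := by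
    have hm : ∀ a ∈ Kf ×ˢ (Xf \ Vf), a.1 * a.2 * a.1⁻¹ ∈ S2 := by
      rintro ⟨k, u⟩ ha
      rw [Finset.mem_product, mK, Finset.mem_sdiff, mX, mV] at ha
      obtain ⟨hk, ⟨huK, hux⟩, hn⟩ := ha
      have hn' : u ∉ Z.U x := fun h1 => hn ⟨huK, h1⟩
      rw [mS2]
      refine ⟨K.mul_mem (K.mul_mem hk huK) (K.inv_mem hk), ?_, k • x, fixc k u x hux, ?_⟩
      · intro h1
        apply hn'
        have h2 : u = 1 := conj_eq_one_iff.1 h1
        rw [h2]
        exact (Z.U x).one_mem
      · exact fun h1 => hn' (conj' k u x h1)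
    have hf : ∀ b ∈ S2, ((Kf ×ˢ (Xf \ Vf)).filter fun a => a.1 * a.2 * a.1⁻¹ = b).card ≤ Xf.card * 2 := by
      intro b hb
      rw [mS2] at hb
      obtain ⟨_, hb1, _⟩ := hb
      -- fixed points of `b`
      let F : Finset O := Finset.univ.filter fun z => b • z = z
      have mF : ∀ z, z ∈ F ↔ b • z = z := fun z => by simp [F]
      have hF : F.card ≤ 2 := by
        by_contra hcon
        push Not at hcon
        obtain ⟨z1, z2, z3, h1, h2, h3, h12, h13, h23⟩ := Finset.two_lt_card_iff.1 hcon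
        rw [mF] at h1 h2 h3
        exact hb1 (Z.free b z1 z2 z3 h12 h23 h13 h1 h2 h3)
      have hmF : ∀ a ∈ (Kf ×ˢ (Xf \ Vf)).filter (fun a => a.1 * a.2 * a.1⁻¹ = b), a.1 • x ∈ F := by
        rintro ⟨k, u⟩ ha
        rw [Finset.mem_filter, Finset.mem_product, mK, Finset.mem_sdiff, mX, mV] at ha
        rw [mF, ← ha.2]
        exact fixc k u x ha.1.2.1.2
      have hff : ∀ z ∈ F, (((Kf ×ˢ (Xf \ Vf)).filter fun a => a.1 * a.2 * a.1⁻¹ = b).filter
          fun a => a.1 • x = z).card ≤ Xf.card := by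
        intro z _
        rcases Finset.eq_empty_or_nonempty (((Kf ×ˢ (Xf \ Vf)).filter
          fun a => a.1 * a.2 * a.1⁻¹ = b).filter fun a => a.1 • x = z) with he | ⟨⟨k0, u0⟩, h0⟩
        · rw [he, Finset.card_empty]
          exact Nat.zero_le _
        have hkz : ∀ k u, (k, u) ∈ ((Kf ×ˢ (Xf \ Vf)).filter
            (fun a => a.1 * a.2 * a.1⁻¹ = b)).filter (fun a => a.1 • x = z) →
            k ∈ K ∧ k • x = z ∧ u = k⁻¹ * b * k := by
          intro k u hku
          rw [Finset.mem_filter, Finset.mem_filter, Finset.mem_product, mK] at hku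
          refine ⟨hku.1.1.1, hku.2, ?_⟩
          rw [← hku.1.2]
          group
        obtain ⟨hk0, hk0z, _⟩ := hkz k0 u0 h0
        refine Finset.card_le_card_of_injOn (fun a => k0⁻¹ * a.1) ?_ ?_
        · rintro ⟨k, u⟩ hku
          obtain ⟨hk, hkz', _⟩ := hkz k u hku
          show k0⁻¹ * k ∈ (Xf : Set G)
          rw [Finset.mem_coe, mX]
          exact ⟨K.mul_mem (K.inv_mem hk0) hk, by rw [mul_smul, hkz', ← hk0z, inv_smul_smul]⟩
        · rintro ⟨k, u⟩ hku ⟨k', u'⟩ hku' heq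
          obtain ⟨_, _, hu⟩ := hkz k u hku
          obtain ⟨_, _, hu'⟩ := hkz k' u' hku'
          have h1 : k = k' := mul_left_cancel heq
          rw [hu, hu', h1]
      have h1 := Finset.card_le_mul_card_image_of_maps_to hmF Xf.card hff
      exact h1.trans (Nat.mul_le_mul_left _ hF)
    have h1 := Finset.card_le_mul_card_image_of_maps_to hm (Xf.card * 2) hf
    rw [Finset.card_product] at h1
    exact h1
  -- arithmetic
  have hK1 : 1 ≤ Kf.card := Finset.card_pos.2 ⟨1, by rw [mK]; exact K.one_mem⟩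
  have hX1 : 1 ≤ Xf.card := Finset.card_pos.2 ⟨1, by rw [mX]; exact ⟨K.one_mem, one_smul _ _⟩⟩
  obtain ⟨r, hr⟩ : ∃ r, q = r + 8 := ⟨q - 8, by omega⟩
  obtain ⟨P', hP'⟩ : ∃ P', Pf.card = P' + 3 := ⟨Pf.card - 3, by omega⟩
  have a1 : 2 * Kf.card ≤ 3 * S1.card := by
    rw [hP'] at hc1
    have e : P' + 3 - 1 = P' + 2 := by omega
    rw [e] at hc1
    by_contra hcon
    push Not at hcon
    have h1 : (P' + 3) * (3 * S1.card) < (P' + 3) * (2 * Kf.card) :=
      Nat.mul_lt_mul_of_pos_left hcon (by omega)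
    have h2 : 3 * (Kf.card * (P' + 2)) ≤ 3 * ((P' + 3) * S1.card) := Nat.mul_le_mul_left _ hc1
    have h3 : 3 * ((P' + 3) * S1.card) = (P' + 3) * (3 * S1.card) := by ring
    have h4 : (P' + 3) * (2 * Kf.card) ≤ 3 * (Kf.card * (P' + 2)) := by
      have : 3 * (Kf.card * (P' + 2)) = (P' + 3) * (2 * Kf.card) + Kf.card * P' := by ring
      omega
    omega
  have a2 : Kf.card * (r + 6) ≤ 2 * (r + 7) * S2.card := by
    rw [hr] at hVX
    have e : r + 8 - 1 = r + 7 := by omega
    rw [e] at hVX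
    -- (r + 7) |Q| ≥ (r + 6) |X|
    have h1 : (r + 6) * Xf.card ≤ (r + 7) * (Xf \ Vf).card := by
      have h2 : (r + 7) * (Xf \ Vf).card + (r + 7) * Vf.card = (r + 7) * Xf.card := by
        rw [← mul_add, hQ]
      have h3 : (r + 7) * Xf.card = (r + 6) * Xf.card + Xf.card := by ring
      omega
    have h4 : Kf.card * ((r + 6) * Xf.card) ≤ Kf.card * ((r + 7) * (Xf \ Vf).card) :=
      Nat.mul_le_mul_left _ h1
    have h5 : (r + 7) * (Kf.card * (Xf \ Vf).card) ≤ (r + 7) * ((Xf.card * 2) * S2.card) :=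
      Nat.mul_le_mul_left _ hc2
    have h6 : Xf.card * (Kf.card * (r + 6)) ≤ Xf.card * (2 * (r + 7) * S2.card) := by
      calc Xf.card * (Kf.card * (r + 6)) = Kf.card * ((r + 6) * Xf.card) := by ring
        _ ≤ Kf.card * ((r + 7) * (Xf \ Vf).card) := h4
        _ = (r + 7) * (Kf.card * (Xf \ Vf).card) := by ring
        _ ≤ (r + 7) * ((Xf.card * 2) * S2.card) := h5
        _ = Xf.card * (2 * (r + 7) * S2.card) := by ring
    exact Nat.le_of_mul_le_mul_left h6 (by omega)
  have a3 : 6 * (r + 7) * (S1.card + S2.card) ≤ 6 * (r + 7) * Kf.card := Nat.mul_le_mul_left _ hsum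
  have a4 : 2 * (r + 7) * (2 * Kf.card) ≤ 2 * (r + 7) * (3 * S1.card) := Nat.mul_le_mul_left _ a1
  have a5 : 3 * (Kf.card * (r + 6)) ≤ 3 * (2 * (r + 7) * S2.card) := Nat.mul_le_mul_left _ a2
  nlinarith [Nat.zero_le (r * Kf.card)]

end Pool.Agent.SZQ
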