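import Pool.Agent.SZQ.Brg

/-! Twisted classes in a group with the data `BNd` (Suzuki cosets): every element which moves a point
is a product of two conjugates of `t φ`. -/

set_option autoImplicit false

namespace Pool.Agent.SZQ

open Subgroup

section
variable {G : Type} [Group G]

/-- `g φ²` is a product of two conjugates of `t φ` -/
def Tw (φ : G ≃* G) (t g : G) : Prop := ∃ c d : G, (c * t * (φ c)⁻¹) * φ (d * t * (φ d)⁻¹) = g

theorem Tw.conj {φ : G ≃* G} {t g : G} (k : G) (h : Tw φ t (k⁻¹ * g * φ (φ k))) : Tw φ t g := by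
  obtain ⟨c, d, h⟩ := h
  refine ⟨k * c, k * d, ?_⟩
  have h1 : g = k * (k⁻¹ * g * φ (φ k)) * (φ (φ k))⁻¹ := by group
  rw [h1, ← h]
  simp only [map_mul, map_inv]
  group

/-- Lang's theorem for `u ↦ t φ(u) t⁻¹` on a finite group `H` -/
theorem lang2 [Finite G] (φ : G ≃* G) (H : Subgroup G) (t : G) (hH : ∀ u ∈ H, t * φ u * t⁻¹ ∈ H)
    (hf : ∀ u ∈ H, t * φ u * t⁻¹ = u → u = 1) {v : G} (hv : v ∈ H) :
    ∃ c ∈ H, c * t * (φ c)⁻¹ = v * t := by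
  have hinj : Function.Injective (fun x : H => (⟨(x : G) * (t * φ (x : G) * t⁻¹)⁻¹,
      mul_mem x.2 (inv_mem (hH _ x.2))⟩ : H)) := by
    intro x y hxy
    have h1 : (x : G) * (t * φ (x : G) * t⁻¹)⁻¹ = (y : G) * (t * φ (y : G) * t⁻¹)⁻¹ :=
      congrArg Subtype.val hxy
    have h2 : t * φ ((y : G)⁻¹ * x) * t⁻¹ = (y : G)⁻¹ * x := by
      calc t * φ ((y : G)⁻¹ * x) * t⁻¹ =
          (y : G)⁻¹ * ((y : G) * (t * φ (y : G) * t⁻¹)⁻¹) * (t * φ (x : G) * t⁻¹) := by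
            rw [map_mul, map_inv]
            group
        _ = (y : G)⁻¹ * ((x : G) * (t * φ (x : G) * t⁻¹)⁻¹) * (t * φ (x : G) * t⁻¹) := by rw [h1]
        _ = (y : G)⁻¹ * x := by group
    have h3 := hf _ (mul_mem (inv_mem y.2) x.2) h2
    rw [inv_mul_eq_one] at h3
    exact Subtype.ext h3.symm
  obtain ⟨x, hx⟩ := Finite.surjective_of_injective hinj ⟨v, hv⟩
  have h1 : (x : G) * (t * φ (x : G) * t⁻¹)⁻¹ = v := congrArg Subtype.val hx
  refine ⟨x, x.2, ?_⟩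
  rw [← h1]
  group

/-- the core -/
theorem BNd.tw [Finite G] {q : ℕ} (D : BNd q G) (hq : 8 ≤ q) (he : Even q) (φ : G ≃* G)
    (hU : ∀ u, φ u ∈ D.U ↔ u ∈ D.U) (hw : φ D.w = D.w) {t : G} (ht : t ∈ zpowers D.h)
    (hfree : ∀ u ∈ D.U, t * φ u * t⁻¹ = u → u = 1) {g : G}
    (hg : ∃ k : G, k⁻¹ * g * φ (φ k) ∉ D.B) : Tw φ t g := by
  obtain ⟨k, hk⟩ := hg
  have hwi := D.winv
  have hw2 := D.w2
  apply Tw.conj (k * D.w)
  obtain ⟨g1, hg1⟩ : ∃ g1, g1 = (k * D.w)⁻¹ * g * φ (φ (k * D.w)) := ⟨_, rfl⟩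
  rw [← hg1]
  have e1 : D.w * g1 * D.w = k⁻¹ * g * φ (φ k) := by
    rw [hg1, map_mul, map_mul, hw, hw, mul_inv_rev, hwi]
    calc D.w * (D.w * k⁻¹ * g * (φ (φ k) * D.w)) * D.w =
        (D.w * D.w) * (k⁻¹ * g * φ (φ k)) * (D.w * D.w) := by group
      _ = k⁻¹ * g * φ (φ k) := by rw [hw2, one_mul, mul_one]
  obtain ⟨k1, v, u, hk1, hv, hu, hg1'⟩ := D.brg hq he (g := g1) (by rw [e1]; exact hk)
  apply Tw.conj k1
  obtain ⟨v2, hv2⟩ : ∃ v2, v2 = D.w * (k1⁻¹ * u * φ (φ k1)) * D.w := ⟨_, rfl⟩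
  have hv2U : v2 ∈ D.U := by
    have h1 : v2 = (D.w * k1 * D.w)⁻¹ * (D.w * u * D.w) * φ (φ (D.w * k1 * D.w)) := by
      rw [hv2]
      simp only [map_mul, hw, mul_inv_rev, hwi]
      calc D.w * (k1⁻¹ * u * φ (φ k1)) * D.w = D.w * k1⁻¹ * u * φ (φ k1) * D.w := by group
        _ = D.w * k1⁻¹ * (D.w * D.w) * u * (D.w * D.w) * φ (φ k1) * D.w := by
          rw [hw2, mul_one, mul_one]
        _ = _ := by group
    rw [h1]
    exact mul_mem (mul_mem (inv_mem hk1) hu) ((hU _).2 ((hU _).2 hk1))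
  have hg2 : k1⁻¹ * g1 * φ (φ k1) = v * (D.w * v2 * D.w) := by
    have h1 : D.w * v2 * D.w = k1⁻¹ * u * φ (φ k1) := by
      rw [hv2]
      calc D.w * (D.w * (k1⁻¹ * u * φ (φ k1)) * D.w) * D.w =
          (D.w * D.w) * (k1⁻¹ * u * φ (φ k1)) * (D.w * D.w) := by group
        _ = _ := by rw [hw2, one_mul, mul_one]
    rw [h1, hg1']
    group
  rw [hg2]
  have hUs : ∀ u ∈ D.U, φ.symm u ∈ D.U := by
    intro u hu
    rw [← hU, MulEquiv.apply_symm_apply]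
    exact hu
  -- Lang for `φ t`
  obtain ⟨c1, hc1, hc1e⟩ := lang2 φ D.U (φ t) (fun u hu => by
      rw [← map_inv, ← map_mul, ← map_mul, hU]
      exact D.norm t ht u hu) (fun u hu h => by
      rw [← map_inv, ← map_mul, ← map_mul] at h
      have h1 := hfree (t * u * t⁻¹) (D.norm t ht u hu) (by rw [h])
      rwa [conj_eq_one_iff] at h1) hv
  obtain ⟨e, he', hee⟩ := lang2 φ D.U t (fun u hu => D.norm t ht _ ((hU u).2 hu)) hfree
    (D.norm t ht _ (hUs v2 hv2U))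
  refine ⟨c1 * t⁻¹, D.w * e, ?_⟩
  have hwt : D.w * φ t * D.w = (φ t)⁻¹ := by
    have h1 := congrArg φ (D.wh t ht)
    rw [hwi, map_mul, map_mul, hw, map_inv] at h1
    exact h1
  have f1 : c1 * t⁻¹ * t * (φ (c1 * t⁻¹))⁻¹ = v * φ t := by
    rw [← hc1e, map_mul, map_inv]
    group
  have f2 : D.w * e * t * (φ (D.w * e))⁻¹ = D.w * (t * φ.symm v2) * D.w := by
    have h1 : e * t * (φ e)⁻¹ = t * φ.symm v2 := by
      rw [hee]
      group
    rw [map_mul, hw, mul_inv_rev, hwi, ← h1]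
    group
  rw [f1, f2]
  have f3 : φ (D.w * (t * φ.symm v2) * D.w) = (φ t)⁻¹ * (D.w * v2 * D.w) := by
    rw [map_mul, map_mul, map_mul, hw, MulEquiv.apply_symm_apply, ← hwt]
    calc D.w * (φ t * v2) * D.w = D.w * φ t * 1 * v2 * D.w := by group
      _ = D.w * φ t * (D.w * D.w) * v2 * D.w := by rw [hw2]
      _ = _ := by group
  rw [f3]
  group

end

end Pool.Agent.SZQ
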