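import Pool.Agent.SZQ.Defs
import Pool.Agent.Helper8.SUZ.Cent

/-! The Suzuki groups over a finite field with a Tits endomorphism: the data `BNd`. -/

set_option autoImplicit false

namespace Pool.Agent.SZQ

open Pool.Agent.Helper8.SUZ

namespace Inst

variable {F : Type} [Field F] [Tits F]

/-- the matrix `S(a, b)` as an element of the Suzuki group -/
def sS (a b : F) : Sz (th : F →+* F) := ⟨gS a b, Subgroup.subset_closure (Or.inl ⟨a, b, rfl⟩)⟩

/-- the diagonal matrix as an element of the Suzuki group -/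
def sM (m : Fˣ) : Sz (th : F →+* F) :=
  ⟨gM m, Subgroup.subset_closure (Or.inr (Or.inl ⟨m, m.ne_zero, rfl⟩))⟩

/-- the antidiagonal matrix as an element of the Suzuki group -/
def sW : Sz (th : F →+* F) := ⟨gW, Subgroup.subset_closure (Or.inr (Or.inr rfl))⟩

theorem sS_mul (a b c d : F) : sS a b * sS c d = sS (a + c) (b + d + th a * c) :=
  Subtype.ext (gS_mul a b c d)

theorem sS_zero : sS (0 : F) 0 = 1 := Subtype.ext gS_zero

theorem sS_inv (a b : F) : (sS a b)⁻¹ = sS a (b + th a * a) := Subtype.ext (gS_inv a b)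

theorem sM_mul (m k : Fˣ) : sM m * sM k = sM (m * k) := Subtype.ext (gM_mul m k)

theorem sM_one : sM (1 : Fˣ) = 1 := Subtype.ext gM_one

theorem sM_inv (m : Fˣ) : (sM m)⁻¹ = sM m⁻¹ := Subtype.ext (gM_inv m)

theorem sM_conj (m : Fˣ) (a b : F) : sM m * sS a b * (sM m)⁻¹ =
    sS (a / th (m : F)) (b / (th (m : F) * (m : F) ^ 2)) := by
  rw [mul_inv_eq_iff_eq_mul]
  exact Subtype.ext (cent_gM m a b)

theorem s_small {a b a' b' : F} {m m' : Fˣ} (h : sS a b * sM m = sS a' b' * sM m') :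
    a = a' ∧ b = b' ∧ m = m' := small_inj (congrArg Subtype.val h)

theorem s_big {a b c d a' b' c' d' : F} {m m' : Fˣ}
    (h : sS a b * sM m * sW * sS c d = sS a' b' * sM m' * sW * sS c' d') :
    a = a' ∧ b = b' ∧ m = m' ∧ c = c' ∧ d = d' := big_inj (congrArg Subtype.val h)

theorem sS_inj {a b a' b' : F} (h : sS a b = sS a' b') : a = a' ∧ b = b' := by
  obtain ⟨h1, h2, -⟩ := s_small (m := 1) (m' := 1) (congrArg (· * sM 1) h)
  exact ⟨h1, h2⟩

theorem sM_inj {m m' : Fˣ} (h : sM m = sM m') : m = m' :=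
  (s_small (a := 0) (b := 0) (a' := 0) (b' := 0) (congrArg (sS 0 0 * ·) h)).2.2

theorem sq_ne {a b : F} (ha : a ≠ 0) : sS a b * sS a b ≠ 1 := by
  intro h
  rw [sS_mul, ← sS_zero] at h
  have h1 := (sS_inj h).2
  have h2 : th a * a = 0 := by linear_combination h1 - b * two_zero (F := F)
  rcases mul_eq_zero.1 h2 with h3 | h3
  · exact th_ne ha h3
  · exact ha h3

theorem sq_eq (b : F) : sS 0 b * sS 0 b = 1 := by
  rw [sS_mul, ← sS_zero]
  congr 1
  · ring
  · linear_combination b * two_zero (F := F)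

/-- the group of the matrices `S(a, b)` -/
def UU (F : Type) [Field F] [Tits F] : Subgroup (Sz (th : F →+* F)) where
  carrier := {g | ∃ a b, g = sS a b}
  mul_mem' := by
    rintro _ _ ⟨a, b, rfl⟩ ⟨c, d, rfl⟩
    exact ⟨_, _, sS_mul a b c d⟩
  one_mem' := ⟨0, 0, sS_zero.symm⟩
  inv_mem' := by
    rintro _ ⟨a, b, rfl⟩
    exact ⟨_, _, sS_inv a b⟩

theorem mem_UU {g : Sz (th : F →+* F)} : g ∈ UU F ↔ ∃ a b, g = sS a b := Iff.rfl

/-- the diagonal matrices as a homomorphism -/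
def homM (F : Type) [Field F] [Tits F] : Fˣ →* Sz (th : F →+* F) where
  toFun := sM
  map_one' := sM_one
  map_mul' m k := (sM_mul m k).symm

theorem s_form (g : Sz (th : F →+* F)) : (∃ a b m, g = sS a b * sM m) ∨
    ∃ a b m c d, g = sS a b * sM m * sW * sS c d := by
  rcases sz_form g.1 g.2 with ⟨a, b, m, h⟩ | ⟨a, b, m, c, d, h⟩
  · exact Or.inl ⟨a, b, m, Subtype.ext h⟩
  · exact Or.inr ⟨a, b, m, c, d, Subtype.ext h⟩

theorem s_ne (a b a' b' c d : F) (m m' : Fˣ) : sS a b * sM m ≠ sS a' b' * sM m' * sW * sS c d := by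
  intro h
  have e03 := congrArg (fun g : Sz (th : F →+* F) => g.1.val 0 3) h
  simp [sS, sM, sW, gS, gM, gW, mS, mM, mW, Matrix.mul_apply, Fin.sum_univ_four] at e03

theorem k_inj {m m' : Fˣ} (h : th (m : F) * (m : F) = th (m' : F) * (m' : F)) : m = m' := by
  have h2 : th (th (m : F) * (m : F)) = th (th (m' : F) * (m' : F)) := by rw [h]
  rw [map_mul, map_mul, th_th, th_th] at h2
  have hm : (m : F) ≠ 0 := m.ne_zero
  have hk : th (m : F) * (m : F) ≠ 0 := mul_ne_zero (th_ne hm) hm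
  apply Units.ext
  apply mul_left_cancel₀ hk
  calc th (m : F) * (m : F) * (m : F) = (m : F) ^ 2 * th (m : F) := by ring
    _ = (m' : F) ^ 2 * th (m' : F) := h2
    _ = th (m' : F) * (m' : F) * (m' : F) := by ring
    _ = th (m : F) * (m : F) * (m' : F) := by rw [h]

theorem fp_a {m : Fˣ} (h : th (m : F) = 1) : m = 1 :=
  Units.ext (th_inj (h.trans (map_one th).symm))

theorem fp_b {m : Fˣ} (h : th (m : F) * (m : F) ^ 2 = 1) : m = 1 := by
  have h1 := congrArg (th : F →+* F) h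
  rw [map_mul, map_pow, th_th, map_one] at h1
  have h2 : (th (m : F) * (m : F)) ^ 2 = 1 := by linear_combination h1
  have h3 : (th (m : F) * (m : F) - 1) ^ 2 = 0 := by
    linear_combination h2 + (1 - th (m : F) * (m : F)) * two_zero (F := F)
  have h4 : th (m : F) * (m : F) = 1 := by linear_combination pow_eq_zero_iff (two_ne_zero) |>.1 h3
  apply Units.ext
  rw [Units.val_one]
  calc (m : F) = th (m : F) * (m : F) * (m : F) := by rw [h4, one_mul]
    _ = th (m : F) * (m : F) ^ 2 := by ring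
    _ = 1 := h

variable [Finite F]

theorem th_surj (x : F) : ∃ y : F, th y = x :=
  (Finite.injective_iff_surjective.1 (th : F →+* F).injective) x

theorem k_surj {c : F} (hc : c ≠ 0) : ∃ a : F, a ≠ 0 ∧ th a * a = c := by
  let f : Fˣ → Fˣ := fun m => Units.mk0 (th (m : F) * (m : F)) (mul_ne_zero (th_ne m.ne_zero) m.ne_zero)
  have hf : Function.Injective f := fun m m' h => k_inj (congrArg Units.val h)
  obtain ⟨m, hm⟩ := Finite.injective_iff_surjective.1 hf (Units.mk0 c hc)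
  exact ⟨m, m.ne_zero, congrArg Units.val hm⟩

theorem gen (K : Subgroup (Sz (th : F →+* F))) (hM : ∀ m : Fˣ, sM m ∈ K) {a b : F} (ha : a ≠ 0)
    (hv : sS a b ∈ K) : UU F ≤ K := by
  have h1 : ∀ a' : F, a' ≠ 0 → ∃ b', sS a' b' ∈ K := by
    intro a' ha'
    obtain ⟨y, hy⟩ := th_surj (a / a')
    have hy0 : y ≠ 0 := by
      rintro rfl
      rw [map_zero] at hy
      exact div_ne_zero ha ha' hy.symm
    have h2 := K.mul_mem (K.mul_mem (hM (Units.mk0 y hy0)) hv) (K.inv_mem (hM (Units.mk0 y hy0)))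
    rw [sM_conj] at h2
    have h3 : a / th ((Units.mk0 y hy0 : Fˣ) : F) = a' := by
      rw [Units.val_mk0, hy]
      field_simp
    rw [h3] at h2
    exact ⟨_, h2⟩
  have h2 : ∀ c : F, sS 0 c ∈ K := by
    intro c
    by_cases hc : c = 0
    · rw [hc, sS_zero]
      exact K.one_mem
    · obtain ⟨a', ha', h3⟩ := k_surj hc
      obtain ⟨b', hb'⟩ := h1 a' ha'
      have h4 := K.mul_mem hb' hb'
      rw [sS_mul] at h4
      have h5 : a' + a' = 0 := by linear_combination a' * two_zero (F := F)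
      have h6 : b' + b' + th a' * a' = c := by linear_combination h3 + b' * two_zero (F := F)
      rw [h5, h6] at h4
      exact h4
  rintro _ ⟨a', c, rfl⟩
  by_cases ha' : a' = 0
  · rw [ha']
    exact h2 c
  · obtain ⟨b', hb'⟩ := h1 a' ha'
    have h3 := K.mul_mem hb' (h2 (c - b'))
    rw [sS_mul] at h3
    have h4 : a' + 0 = a' := by ring
    have h5 : b' + (c - b') + th a' * 0 = c := by ring
    rw [h4, h5] at h3
    exact h3

theorem prod (hF : 8 ≤ Nat.card F) (a b : F) : ∃ x ∈ UU F, ∃ y ∈ UU F,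
    x * x ≠ 1 ∧ y * y ≠ 1 ∧ x * y = sS a b := by
  classical
  haveI := Fintype.ofFinite F
  obtain ⟨c, -, hc⟩ := Finset.exists_mem_notMem_of_card_lt_card
    (s := ({0, a} : Finset F)) (t := Finset.univ) (by
      rw [Finset.card_univ, ← Nat.card_eq_fintype_card]
      have := Finset.card_le_two (a := (0 : F)) (b := a)
      omega)
  simp only [Finset.mem_insert, Finset.mem_singleton, not_or] at hc
  refine ⟨sS c 0, ⟨_, _, rfl⟩, sS (a - c) (b - th c * (a - c)), ⟨_, _, rfl⟩, sq_ne hc.1,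
    sq_ne (sub_ne_zero.2 fun h => hc.2 h.symm), ?_⟩
  rw [sS_mul]
  congr 1 <;> ring

end Inst

open Inst in
/-- module Inst: the Suzuki group over a field with `2 ^ (2 n + 1) ≥ 8` elements -/
theorem bnd_sz {F : Type} [Field F] [Finite F] [Tits F] (hF : 8 ≤ Nat.card F) :
    Nonempty (BNd (Nat.card F) (Sz (th : F →+* F))) := by
  obtain ⟨m0, hm0⟩ := IsCyclic.exists_generator (α := Fˣ)
  have hz : ∀ g : Sz (th : F →+* F), g ∈ Subgroup.zpowers (sM m0) ↔ ∃ m, g = sM m := by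
    intro g
    constructor
    · rintro ⟨j, rfl⟩
      exact ⟨m0 ^ j, ((homM F).map_zpow m0 j).symm⟩
    · rintro ⟨m, rfl⟩
      obtain ⟨j, rfl⟩ := hm0 m
      exact ⟨j, ((homM F).map_zpow m0 j).symm⟩
  refine ⟨{ U := UU F, h := sM m0, w := sW, ord := ?_, norm := ?_, w2 := ?_, wh := ?_, form := ?_, uniq1 := ?_, uniq2 := ?_, ne := ?_, fp := ?_, cardU := ?_, cardZ := ?_, gen4 := ?_, prod4 := ?_ }⟩
  · have h1 : orderOf (homM F m0) = orderOf m0 :=
      orderOf_injective (homM F) (fun m m' h => sM_inj h) m0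
    have h2 : orderOf m0 = Nat.card Fˣ := orderOf_eq_card_of_forall_mem_zpowers hm0
    rw [show sM m0 = homM F m0 from rfl, h1, h2, Nat.card_units]
  · intro t ht u hu
    obtain ⟨m, rfl⟩ := (hz t).1 ht
    obtain ⟨a, b, rfl⟩ := hu
    exact ⟨_, _, sM_conj m a b⟩
  · exact Subtype.ext gW_sq
  · intro t ht
    obtain ⟨m, rfl⟩ := (hz t).1 ht
    rw [mul_inv_eq_iff_eq_mul, sM_inv]
    exact Subtype.ext (gW_gM m)
  · intro g
    rcases s_form g with ⟨a, b, m, rfl⟩ | ⟨a, b, m, c, d, rfl⟩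
    · exact Or.inl ⟨_, ⟨a, b, rfl⟩, _, (hz _).2 ⟨m, rfl⟩, rfl⟩
    · exact Or.inr ⟨_, ⟨a, b, rfl⟩, _, (hz _).2 ⟨m, rfl⟩, _, ⟨c, d, rfl⟩, rfl⟩
  · intro u hu t ht u' hu' t' ht' h
    obtain ⟨m, rfl⟩ := (hz t).1 ht
    obtain ⟨m', rfl⟩ := (hz t').1 ht'
    obtain ⟨a, b, rfl⟩ := hu
    obtain ⟨a', b', rfl⟩ := hu'
    obtain ⟨rfl, rfl, rfl⟩ := s_small h
    exact ⟨rfl, rfl⟩
  · intro u hu t ht v hv u' hu' t' ht' v' hv' h
    obtain ⟨m, rfl⟩ := (hz t).1 ht
    obtain ⟨m', rfl⟩ := (hz t').1 ht'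
    obtain ⟨a, b, rfl⟩ := hu
    obtain ⟨a', b', rfl⟩ := hu'
    obtain ⟨c, d, rfl⟩ := hv
    obtain ⟨c', d', rfl⟩ := hv'
    obtain ⟨rfl, rfl, rfl, rfl, rfl⟩ := s_big h
    exact ⟨rfl, rfl, rfl⟩
  · intro u hu t ht u' hu' t' ht' v' hv' h
    obtain ⟨m, rfl⟩ := (hz t).1 ht
    obtain ⟨m', rfl⟩ := (hz t').1 ht'
    obtain ⟨a, b, rfl⟩ := hu
    obtain ⟨a', b', rfl⟩ := hu'
    obtain ⟨c', d', rfl⟩ := hv'
    exact s_ne _ _ _ _ _ _ _ _ h
  · intro t ht u hu h
    obtain ⟨m, rfl⟩ := (hz t).1 ht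
    obtain ⟨a, b, rfl⟩ := hu
    by_cases hm : m = 1
    · exact Or.inl (by rw [hm, sM_one])
    · right
      rw [sM_conj] at h
      obtain ⟨h1, h2⟩ := sS_inj h
      have hm0' : (m : F) ≠ 0 := m.ne_zero
      have ht0 : th (m : F) ≠ 0 := th_ne hm0'
      have ha : a = 0 := by
        by_contra ha
        refine hm (fp_a ?_)
        rw [div_eq_iff ht0] at h1
        have h3 : a * (th (m : F) - 1) = 0 := by linear_combination -h1
        exact sub_eq_zero.1 ((mul_eq_zero.1 h3).resolve_left ha)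
      have hb : b = 0 := by
        by_contra hb
        refine hm (fp_b ?_)
        rw [div_eq_iff (mul_ne_zero ht0 (pow_ne_zero 2 hm0'))] at h2
        have h3 : b * (th (m : F) * (m : F) ^ 2 - 1) = 0 := by linear_combination -h2
        exact sub_eq_zero.1 ((mul_eq_zero.1 h3).resolve_left hb)
      rw [ha, hb, sS_zero]
  · have e : (F × F) ≃ UU F := Equiv.ofBijective (fun p => ⟨sS p.1 p.2, ⟨_, _, rfl⟩⟩)
      ⟨fun p p' h => Prod.ext (sS_inj (congrArg Subtype.val h)).1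
        (sS_inj (congrArg Subtype.val h)).2, fun u => by
        obtain ⟨_, a, b, rfl⟩ := u
        exact ⟨(a, b), rfl⟩⟩
    rw [← Nat.card_congr e, Nat.card_prod, sq]
  · have e : F ≃ {u : Sz (th : F →+* F) // u ∈ UU F ∧ u * u = 1} :=
      Equiv.ofBijective (fun b => ⟨sS 0 b, ⟨_, _, rfl⟩, sq_eq b⟩)
      ⟨fun p p' h => (sS_inj (congrArg Subtype.val h)).2, fun u => by
        obtain ⟨_, ⟨a, b, rfl⟩, h⟩ := u
        have ha : a = 0 := by
          by_contra ha
          exact sq_ne ha h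
        subst ha
        exact ⟨b, rfl⟩⟩
    exact (Nat.card_congr e).symm
  · intro K hK v hv hvK hv2
    obtain ⟨a, b, rfl⟩ := hv
    have ha : a ≠ 0 := by
      rintro rfl
      exact hv2 (sq_eq b)
    refine gen K (fun m => ?_) ha hvK
    exact (Subgroup.zpowers_le.2 hK) ((hz _).2 ⟨m, rfl⟩)
  · rintro u ⟨a, b, rfl⟩
    exact prod hF a b

end Pool.Agent.SZQ
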