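import Pool.Agent.SZQ.ZMain
import Pool.Agent.SZQ.BN
import Pool.Agent.SZQ.Inst

/-! Module Fin: the Suzuki groups in the form of the hand-in. -/

set_option autoImplicit false

namespace Pool.Agent.SZQ

open Pool.Agent.Helper8.SUZ

theorem char_two {F : Type} [Field F] [Finite F] {m : ℕ} (hF : Nat.card F = 2 ^ m) :
    CharP F 2 := by
  obtain ⟨p, hp⟩ := CharP.exists F
  have := Fintype.ofFinite F
  obtain ⟨k, hpp, hk⟩ := FiniteField.card F p
  rw [Nat.card_eq_fintype_card, hk] at hF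
  have h1 : p ∣ 2 ^ m := by
    rw [← hF]
    exact dvd_pow_self p k.ne_zero
  have h2 : p = 2 := (Nat.prime_dvd_prime_iff_eq hpp Nat.prime_two).1 (hpp.dvd_of_dvd_pow h1)
  subst h2
  exact hp

theorem sz_main {F : Type} [Field F] [Finite F] {n : ℕ} (hn : 1 ≤ n)
    (hF : Nat.card F = 2 ^ (2 * n + 1)) {G W : Type} [Group G]
    (e : G ≃* Sz (fun x : F => x ^ (2 ^ (n + 1)))) [MulAction G W]
    [MulAction.IsPretransitive G W] [Nontrivial W] (g : G) :
    ∃ x y : G, (∀ a : W, x • a ≠ a) ∧ (∀ a : W, y • a ≠ a) ∧ x * y = g := by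
  classical
  have : CharP F 2 := char_two hF
  have : Fintype F := Fintype.ofFinite F
  let _ : Tits F :=
    { th := iterateFrobenius F 2 (n + 1)
      sq := fun x => by
        have h1 : x ^ (2 ^ (2 * n + 1)) = x := by
          have h2 := FiniteField.pow_card x
          rwa [← Nat.card_eq_fintype_card, hF] at h2
        rw [iterateFrobenius_def, iterateFrobenius_def, ← pow_mul, ← pow_add,
          show n + 1 + (n + 1) = 2 * n + 1 + 1 by ring, pow_succ, pow_mul, h1] }
  have hS : Sz (fun x : F => x ^ (2 ^ (n + 1))) = Sz (th : F →+* F) := by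
    congr 1
  set e' : G ≃* Sz (th : F →+* F) := e.trans (MulEquiv.subgroupCongr hS) with he'
  have hq : 8 ≤ Nat.card F := by
    rw [hF]
    calc 8 = 2 ^ 3 := by norm_num
      _ ≤ 2 ^ (2 * n + 1) := Nat.pow_le_pow_right (by norm_num) (by omega)
  have hev : Even (Nat.card F) := by
    rw [hF, pow_succ]
    exact even_two.mul_left _
  obtain ⟨D⟩ := bnd_sz (F := F) hq
  obtain ⟨O, _, _, ⟨Z⟩⟩ := D.zd hq hev
  obtain ⟨a0, b0, hab⟩ := exists_pair_ne W
  set K : Subgroup (Sz (th : F →+* F)) := (MulAction.stabilizer G a0).comap e'.symm.toMonoidHom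
    with hK
  have hmem : ∀ z, z ∈ K ↔ e'.symm z • a0 = a0 := fun z => Iff.rfl
  have hKt : K ≠ ⊤ := by
    intro h
    obtain ⟨c, hc⟩ := MulAction.exists_smul_eq G a0 b0
    have h1 : e' c ∈ K := by
      rw [h]
      trivial
    rw [hmem, MulEquiv.symm_apply_apply, hc] at h1
    exact hab h1.symm
  have key : ∀ x, Dr K x → ∀ a : W, e'.symm x • a ≠ a := by
    intro x hx a ha
    obtain ⟨c, rfl⟩ := MulAction.exists_smul_eq G a0 a
    refine hx (e' c) ?_
    rw [hmem, map_mul, map_mul, map_inv, MulEquiv.symm_apply_apply, mul_smul, mul_smul, ha,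
      inv_smul_smul]
  obtain ⟨x, y, hx, hy, hxy⟩ := Z.main hq hev K hKt (e' g)
  refine ⟨e'.symm x, e'.symm y, key x hx, key y hy, ?_⟩
  rw [← map_mul, hxy, MulEquiv.symm_apply_apply]

end Pool.Agent.SZQ
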