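import Pool.Agent.SZQ.Inst

/-! Field lemmas for the twisted Suzuki cosets (helper44 for helper63). -/

set_option autoImplicit false

namespace Pool.Agent.SZQ

open Inst Pool.Agent.Helper8.SUZ

theorem fld {F : Type} [Field F] [Finite F] [Tits F] (σ : F ≃+* F)
    (hc : ∀ x, σ (th x) = th (σ x)) (hσ : ∃ a : F, a ≠ 0 ∧ a ≠ 1 ∧ σ a = a) :
    ∃ m : Fˣ, (∀ a : F, σ a / th (m : F) = a → a = 0) ∧
      (∀ b : F, σ b / (th (m : F) * (m : F) ^ 2) = b → b = 0) := by
  classical
  let s : Fˣ →* Fˣ := Units.map ((σ : F →+* F) : F →* F)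
  have hs : ∀ a : Fˣ, ((s a : Fˣ) : F) = σ (a : F) := fun a => rfl
  let f : Fˣ →* Fˣ := s / MonoidHom.id Fˣ
  have hf : ∀ a : Fˣ, f a = s a / a := fun a => rfl
  let k : Fˣ →* Fˣ := Units.map ((th : F →+* F) : F →* F) * MonoidHom.id Fˣ
  have hk : ∀ a : Fˣ, ((k a : Fˣ) : F) = th (a : F) * (a : F) := fun a => rfl
  have kinj : Function.Injective k := by
    intro a b h
    apply k_inj
    rw [← hk, ← hk, h]
  -- the homomorphism `f` is not surjective
  have fns : ¬ Function.Surjective f := by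
    intro hs'
    have hi : Function.Injective f := Finite.injective_iff_surjective.2 hs'
    obtain ⟨a, ha0, ha1, ha⟩ := hσ
    apply ha1
    have h1 : f (Units.mk0 a ha0) = f 1 := by
      rw [hf, hf, map_one, div_one, div_eq_one]
      apply Units.ext
      rw [hs]
      exact ha
    have h2 := hi h1
    have h3 := congrArg (fun u : Fˣ => (u : F)) h2
    simpa using h3
  have hfk : ∀ a, k (f a) = f (k a) := by
    intro a
    rw [hf, hf, map_div]
    congr 1
    apply Units.ext
    rw [hk, hs, hs, hk, map_mul, hc]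
  -- `k` maps the range of `f` onto itself
  have hsur : ∀ x ∈ f.range, ∃ y ∈ f.range, k y = x := by
    intro x hx
    let r : f.range → f.range := fun y => ⟨k y.1, by
      obtain ⟨a, ha⟩ := y.2
      exact ⟨k a, by rw [← hfk, ha]⟩⟩
    have hr : Function.Injective r := by
      intro y z h
      exact Subtype.ext (kinj (congrArg Subtype.val h))
    obtain ⟨y, hy⟩ := (Finite.injective_iff_surjective.1 hr) ⟨x, hx⟩
    exact ⟨y.1, y.2, congrArg Subtype.val hy⟩
  unfold Function.Surjective at fns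
  push Not at fns
  obtain ⟨c, hcn⟩ := fns
  -- `c = th m`
  obtain ⟨m', hm'⟩ := th_surj (F := F) (c : F)
  have hm0 : m' ≠ 0 := by
    rintro rfl
    rw [map_zero] at hm'
    exact c.ne_zero hm'.symm
  refine ⟨Units.mk0 m' hm0, ?_, ?_⟩
  · intro a ha
    by_contra ha0
    apply hcn (Units.mk0 a ha0)
    rw [hf, div_eq_iff_eq_mul]
    apply Units.ext
    rw [hs, Units.val_mul, Units.val_mk0]
    rw [Units.val_mk0, hm', div_eq_iff c.ne_zero] at ha
    rw [ha]
    ring
  · intro b hb
    by_contra hb0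
    have h1 : th (m' : F) * m' ^ 2 = ((k c : Fˣ) : F) := by
      rw [hk, ← hm', th_th]
      ring
    rw [Units.val_mk0, h1, div_eq_iff (k c).ne_zero] at hb
    have h2 : k c ∈ f.range := by
      refine ⟨Units.mk0 b hb0, ?_⟩
      rw [hf, div_eq_iff_eq_mul]
      apply Units.ext
      rw [hs, Units.val_mul, Units.val_mk0, hb]
      ring
    obtain ⟨y, ⟨z, hz⟩, hy⟩ := hsur _ h2
    apply hcn z
    rw [hz]
    exact kinj hy

theorem odd_inv {F : Type} [Field F] [Finite F] {n : ℕ} (hF : Nat.card F = 2 ^ (2 * n + 1))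
    (σ : F ≃+* F) (h : ∀ a, σ (σ a) = a) : ∀ a, σ a = a := by
  have := Fintype.ofFinite F
  have h2 : (2 : F) = 0 := by
    have h := FiniteField.cast_card_eq_zero F
    rw [← Nat.card_eq_fintype_card, hF] at h
    push_cast at h
    exact (pow_eq_zero_iff (Nat.succ_ne_zero _)).1 h
  have hchar : CharP F 2 := CharTwo.of_one_ne_zero_of_two_eq_zero one_ne_zero h2
  let _ : Algebra (ZMod 2) F := ZMod.algebra F 2
  have hfr : Module.finrank (ZMod 2) F = 2 * n + 1 := by
    have h3 := Module.natCard_eq_pow_finrank (K := ZMod 2) (V := F)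
    rw [hF, Nat.card_zmod] at h3
    exact (Nat.pow_right_injective (le_refl 2) h3).symm
  let τ : F ≃ₐ[ZMod 2] F := AlgEquiv.ofRingEquiv (f := σ) (fun r => by
    obtain ⟨r, rfl⟩ := ZMod.natCast_zmod_surjective r
    simp)
  have hτ : ∀ a, τ a = σ a := fun a => rfl
  have hcard : Nat.card (F ≃ₐ[ZMod 2] F) = 2 * n + 1 := by
    rw [← hfr]
    exact IsGalois.card_aut_eq_finrank (ZMod 2) F
  have hsq : τ ^ 2 = 1 := by
    ext a
    rw [pow_two, AlgEquiv.mul_apply, hτ, hτ, h, AlgEquiv.one_apply]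
  have h4 : orderOf τ ∣ 2 := orderOf_dvd_of_pow_eq_one hsq
  have h5 : orderOf τ ∣ 2 * n + 1 := by
    rw [← hcard]
    exact orderOf_dvd_natCard τ
  have h6 : orderOf τ = 1 := by
    rcases (Nat.dvd_prime Nat.prime_two).1 h4 with h7 | h7
    · exact h7
    · rw [h7] at h5
      omega
  have h7 := orderOf_eq_one_iff.1 h6
  intro a
  rw [← hτ, h7, AlgEquiv.one_apply]

end Pool.Agent.SZQ
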