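import Pool.Agent.SZQ.CstA
import Pool.Agent.SZQ.InstE
import Pool.Agent.SZQ.AutC
import Pool.Agent.SZQ.FldC
import Pool.Agent.SZQ.Fin

/-! Cosets of the Suzuki groups: `(x^G)² = α² G`. -/

set_option autoImplicit false

namespace Pool.Agent.SZQ

open Inst Pool.Agent.Helper8.SUZ
open scoped Pointwise

section
variable {G : Type} [Group G]

/-- the statement about cosets from `Tw` -/
theorem coset_of_tw (φ α : MulAut G) (A : G) (hα : α = MulAut.conj A * φ) (t : G)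
    (h : ∀ g, Tw φ t g) :
    ∃ x : MulAut G, (∃ g : G, x = α * MulAut.conj g) ∧
      {y | ∃ g : G, y = (MulAut.conj g)⁻¹ * x * MulAut.conj g} *
        {y | ∃ g : G, y = (MulAut.conj g)⁻¹ * x * MulAut.conj g} =
        {y | ∃ g : G, y = α ^ 2 * MulAut.conj g} := by
  have hc : ∀ g : G, φ * MulAut.conj g = MulAut.conj (φ g) * φ := by
    intro g
    ext z
    simp [MulAut.conj_apply]
  have hcl : ∀ g : G, (MulAut.conj g)⁻¹ * (MulAut.conj t * φ) * MulAut.conj g =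
      MulAut.conj (g⁻¹ * t * (φ g⁻¹)⁻¹) * φ := by
    intro g
    have e : φ g⁻¹ = (φ g)⁻¹ := map_inv φ g
    rw [e, inv_inv, map_mul, map_mul, map_inv, mul_assoc, mul_assoc, hc]
    group
  have hpr : ∀ a b : G, MulAut.conj a * φ * (MulAut.conj b * φ) =
      MulAut.conj (a * φ b) * (φ * φ) := by
    intro a b
    calc MulAut.conj a * φ * (MulAut.conj b * φ) = MulAut.conj a * (φ * MulAut.conj b) * φ := by
          group
      _ = MulAut.conj (a * φ b) * (φ * φ) := by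
          rw [hc, map_mul]
          group
  have ha2 : ∀ g : G, α ^ 2 * MulAut.conj g = MulAut.conj (A * φ A * φ (φ g)) * (φ * φ) := by
    intro g
    rw [hα, pow_two, hpr, mul_assoc, mul_assoc, hc, ← mul_assoc φ, hc, map_mul _ (A * φ A)]
    group
  refine ⟨MulAut.conj t * φ, ⟨φ.symm (A⁻¹ * t), ?_⟩, ?_⟩
  · rw [hα, mul_assoc, hc, MulEquiv.apply_symm_apply, ← mul_assoc, ← map_mul, mul_inv_cancel_left]
  · ext z
    constructor
    · rintro ⟨_, ⟨g1, rfl⟩, _, ⟨g2, rfl⟩, rfl⟩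
      refine ⟨φ.symm (φ.symm ((A * φ A)⁻¹ *
        ((g1⁻¹ * t * (φ g1⁻¹)⁻¹) * φ (g2⁻¹ * t * (φ g2⁻¹)⁻¹)))), ?_⟩
      rw [ha2, MulEquiv.apply_symm_apply, MulEquiv.apply_symm_apply, mul_inv_cancel_left]
      change _ * _ = _
      rw [hcl, hcl, hpr]
    · rintro ⟨g, rfl⟩
      obtain ⟨c, d, hcd⟩ := h (A * φ A * φ (φ g))
      refine ⟨MulAut.conj (c * t * (φ c)⁻¹) * φ, ⟨c⁻¹, ?_⟩,
        MulAut.conj (d * t * (φ d)⁻¹) * φ, ⟨d⁻¹, ?_⟩, ?_⟩
      · rw [hcl, inv_inv]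
      · rw [hcl, inv_inv]
      · change _ * _ = _
        rw [hpr, hcd, ha2]

end

theorem sz_tw {F : Type} [Field F] [Finite F] [Tits F] {n : ℕ} (hn : 1 ≤ n)
    (hF : Nat.card F = 2 ^ (2 * n + 1)) (σ : F ≃+* F) (hc : ∀ x, σ (th x) = th (σ x))
    (hσ : ∃ a : F, a ≠ 0 ∧ a ≠ 1 ∧ σ a = a)
    (φ : Sz (th : F →+* F) ≃* Sz (th : F →+* F))
    (hS : ∀ a b, φ (sS a b) = sS (σ a) (σ b))
    (hM : ∀ m : Fˣ, φ (sM m) = sM (Units.map (σ : F →* F) m)) (hW : φ sW = sW)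
    (hU : ∀ u, φ u ∈ UU F ↔ u ∈ UU F) :
    ∃ t : Sz (th : F →+* F), ∀ g, Tw φ t g := by
  have hq : 8 ≤ Nat.card F := by
    rw [hF]
    calc 8 = 2 ^ 3 := by norm_num
      _ ≤ 2 ^ (2 * n + 1) := Nat.pow_le_pow_right (by norm_num) (by omega)
  have hev : Even (Nat.card F) := by
    rw [hF, pow_succ]
    exact even_two.mul_left _
  obtain ⟨D, hDU, hDw, hDh⟩ := bnd_szE (F := F) hq
  obtain ⟨m, hm1, hm2⟩ := fld σ hc hσ
  refine ⟨sM m, fun g => ?_⟩
  by_cases hg : ∃ k : Sz (th : F →+* F), k⁻¹ * g * φ (φ k) ∉ D.B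
  · refine D.tw hq hev φ (fun u => by rw [hDU]; exact hU u) (by rw [hDw]; exact hW)
      ((hDh _).2 ⟨m, rfl⟩) ?_ hg
    intro u hu h
    rw [hDU] at hu
    obtain ⟨a, b, rfl⟩ := hu
    rw [hS, sM_conj] at h
    obtain ⟨h1, h2⟩ := sS_inj h
    rw [hm1 a h1, hm2 b h2, sS_zero]
  · push Not at hg
    have hwi := D.winv
    have hT : ∀ k, k⁻¹ * g * φ (φ k) ∈ Subgroup.zpowers D.h := by
      intro k
      have h1 := hg k
      have h2 := hg (k * D.w)
      have h3 : (k * D.w)⁻¹ * g * φ (φ (k * D.w)) = D.w⁻¹ * (k⁻¹ * g * φ (φ k)) * D.w := by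
        rw [map_mul, map_mul, hDw, hW, hW, mul_inv_rev]
        group
      rw [h3] at h2
      refine D.stab2 (D.b0 h1) ?_
      change ((k⁻¹ * g * φ (φ k) * D.w : Sz (th : F →+* F)) : _ ⧸ D.B) = _
      rw [QuotientGroup.eq]
      have h4 : (k⁻¹ * g * φ (φ k) * D.w)⁻¹ * D.w =
          (D.w⁻¹ * (k⁻¹ * g * φ (φ k)) * D.w)⁻¹ := by group
      rw [h4]
      exact inv_mem h2
    obtain ⟨m1, hm⟩ := (hDh _).1 (hT 1)
    rw [map_one, map_one, inv_one, one_mul, mul_one] at hm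
    have hrel : ∀ a b : F, a = σ (σ a) / th (m1 : F) := by
      intro a b
      obtain ⟨m2, h2⟩ := (hDh _).1 (hT (sS a b))
      rw [hS, hS, hm] at h2
      have h3 : sM m1 * sS (σ (σ a)) (σ (σ b)) * (sM m1)⁻¹ * sM m1 = sS a b * sM m2 := by
        rw [← h2]
        group
      rw [sM_conj] at h3
      exact (s_small h3).1.symm
    have hm1' : th (m1 : F) = 1 := by
      have h1 := hrel 1 0
      rw [map_one, map_one, eq_div_iff (th_ne m1.ne_zero), one_mul] at h1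
      exact h1
    have hm11 : m1 = 1 := fp_a hm1'
    have hσ2 : ∀ a, σ (σ a) = a := by
      intro a
      have h1 := hrel a 0
      rw [hm1', div_one] at h1
      exact h1.symm
    have hσ1 := odd_inv hF σ hσ2
    have hφm : φ (sM m) = sM m := by
      rw [hM]
      congr 1
      apply Units.ext
      exact hσ1 _
    have hg1 : g = 1 := by
      rw [hm, hm11, sM_one]
    refine ⟨1, D.w, ?_⟩
    have h1 : D.w * sM m * (φ D.w)⁻¹ = (sM m)⁻¹ := by
      rw [hDw, hW, ← hDw]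
      exact D.wh _ ((hDh _).2 ⟨m, rfl⟩)
    rw [h1, map_inv, hφm, hg1, map_one, inv_one, one_mul, mul_one, mul_inv_cancel]

theorem sz_coset' {F : Type} [Field F] [Finite F] [Tits F] {n : ℕ} (hn : 1 ≤ n)
    (hF : Nat.card F = 2 ^ (2 * n + 1)) (σ : F ≃+* F) (hc : ∀ x, σ (th x) = th (σ x))
    (hσ : ∃ a : F, a ≠ 0 ∧ a ≠ 1 ∧ σ a = a) (f : F → F) (hf : f = (th : F →+* F))
    (A : Sz f) (α : MulAut (Sz f))
    (hα : ∀ g : Sz f, ((α g : Sz f) : GL (Fin 4) F) =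
        (A : GL (Fin 4) F) * Matrix.GeneralLinearGroup.map (σ : F →+* F) (g : GL (Fin 4) F) *
          (A : GL (Fin 4) F)⁻¹) :
    ∃ x : MulAut (Sz f), (∃ g : Sz f, x = α * MulAut.conj g) ∧
      {y | ∃ g : Sz f, y = (MulAut.conj g)⁻¹ * x * MulAut.conj g} *
        {y | ∃ g : Sz f, y = (MulAut.conj g)⁻¹ * x * MulAut.conj g} =
        {y | ∃ g : Sz f, y = α ^ 2 * MulAut.conj g} := by
  subst hf
  obtain ⟨φ, h0, hS, hM, hW, hU⟩ := szAut σ hc
  obtain ⟨t, ht⟩ := sz_tw hn hF σ hc hσ φ hS hM hW hU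
  refine coset_of_tw φ α A ?_ t ht
  ext1 g
  apply Subtype.ext
  rw [hα, MulAut.mul_apply, MulAut.conj_apply]
  change _ = (A : GL (Fin 4) F) * ((φ g : Sz (th : F →+* F)) : GL (Fin 4) F) *
    (A : GL (Fin 4) F)⁻¹
  rw [h0]

theorem sz_coset {F : Type} [Field F] [Finite F] {n : ℕ} (hn : 1 ≤ n)
    (hF : Nat.card F = 2 ^ (2 * n + 1)) (σ : F ≃+* F) (hσ : ∃ a : F, a ≠ 0 ∧ a ≠ 1 ∧ σ a = a)
    (A : Sz (fun x : F => x ^ (2 ^ (n + 1)))) (α : MulAut (Sz (fun x : F => x ^ (2 ^ (n + 1)))))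
    (hα : ∀ g : Sz (fun x : F => x ^ (2 ^ (n + 1))),
      ((α g : Sz (fun x : F => x ^ (2 ^ (n + 1)))) : GL (Fin 4) F) =
        (A : GL (Fin 4) F) * Matrix.GeneralLinearGroup.map (σ : F →+* F) (g : GL (Fin 4) F) *
          (A : GL (Fin 4) F)⁻¹) :
    ∃ x : MulAut (Sz (fun x : F => x ^ (2 ^ (n + 1)))),
      (∃ g : Sz (fun x : F => x ^ (2 ^ (n + 1))), x = α * MulAut.conj g) ∧
      {y | ∃ g : Sz (fun x : F => x ^ (2 ^ (n + 1))),
          y = (MulAut.conj g)⁻¹ * x * MulAut.conj g} *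
        {y | ∃ g : Sz (fun x : F => x ^ (2 ^ (n + 1))),
          y = (MulAut.conj g)⁻¹ * x * MulAut.conj g} =
        {y | ∃ g : Sz (fun x : F => x ^ (2 ^ (n + 1))), y = α ^ 2 * MulAut.conj g} := by
  have : CharP F 2 := char_two hF
  have : Fintype F := Fintype.ofFinite F
  let _ : Tits F :=
    { th := iterateFrobenius F 2 (n + 1)
      sq := fun x => by
        have h1 : x ^ (2 ^ (2 * n + 1)) = x := by
          have h2 := FiniteField.pow_card x
          rwa [← Nat.card_eq_fintype_card, hF] at h2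
        rw [iterateFrobenius_def, iterateFrobenius_def, ← pow_mul, ← pow_add,
          show n + 1 + (n + 1) = 2 * n + 1 + 1 by ring, pow_succ, pow_mul, h1] }
  exact sz_coset' hn hF σ (fun x => map_pow σ x _) hσ _ (funext fun x => rfl) A α hα

end Pool.Agent.SZQ
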