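import Mathlib

/-! Products of two derangements in the Suzuki groups: abstract setting (helper44). -/

set_option autoImplicit false

namespace Pool.Agent.SZQ

/-- no conjugate of `x` lies in `K` -/
def Dr {G : Type} [Group G] (K : Subgroup G) (x : G) : Prop := ∀ c : G, c⁻¹ * x * c ∉ K

/-- A Zassenhaus group of Suzuki type acting on `O`. -/
structure ZD (q : ℕ) (G O : Type) [Group G] [MulAction G O] where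
  U : O → Subgroup G
  fixU : ∀ p, ∀ u ∈ U p, u • p = p
  conjU : ∀ (g : G) (p : O), ∀ u ∈ U p, g * u * g⁻¹ ∈ U (g • p)
  exU : ∀ p x y : O, x ≠ p → y ≠ p → ∃ u ∈ U p, u • x = y
  freeU : ∀ p x : O, x ≠ p → ∀ u ∈ U p, u • x = x → u = 1
  free : ∀ (g : G) (x y z : O), x ≠ y → y ≠ z → x ≠ z → g • x = x → g • y = y → g • z = z → g = 1
  tor : ∀ x y : O, x ≠ y → ∃ h : G, h • x = x ∧ h • y = y ∧ orderOf h = q - 1 ∧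
    ∀ g : G, g • x = x → g • y = y → g ∈ Subgroup.zpowers h
  inv : ∀ x y : O, x ≠ y → ∃ w : G, w • x = y ∧ w • y = x ∧
    ∀ t : G, t • x = x → t • y = y → w * t * w⁻¹ = t⁻¹
  cardO : Nat.card O = q ^ 2 + 1
  cardZ : ∀ p, Nat.card {u : G // u ∈ U p ∧ u * u = 1} = q
  gen4 : ∀ (p : O) (K : Subgroup G) (v h : G), v ∈ U p → v ∈ K → v * v ≠ 1 → h ∈ K →
    h • p = p → orderOf h = q - 1 → U p ≤ K
  prod4 : ∀ p : O, ∀ u ∈ U p, ∃ x ∈ U p, ∃ y ∈ U p, x * x ≠ 1 ∧ y * y ≠ 1 ∧ x * y = u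

/-- The same data at the base point: `B = U ⟨h⟩`, `G = B ∪ B w U`. -/
structure BNd (q : ℕ) (G : Type) [Group G] where
  U : Subgroup G
  h : G
  w : G
  ord : orderOf h = q - 1
  norm : ∀ t ∈ Subgroup.zpowers h, ∀ u ∈ U, t * u * t⁻¹ ∈ U
  w2 : w * w = 1
  wh : ∀ t ∈ Subgroup.zpowers h, w * t * w⁻¹ = t⁻¹
  form : ∀ g : G, (∃ u ∈ U, ∃ t ∈ Subgroup.zpowers h, g = u * t) ∨
    (∃ u ∈ U, ∃ t ∈ Subgroup.zpowers h, ∃ v ∈ U, g = u * t * w * v)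
  uniq1 : ∀ u ∈ U, ∀ t ∈ Subgroup.zpowers h, ∀ u' ∈ U, ∀ t' ∈ Subgroup.zpowers h,
    u * t = u' * t' → u = u' ∧ t = t'
  uniq2 : ∀ u ∈ U, ∀ t ∈ Subgroup.zpowers h, ∀ v ∈ U, ∀ u' ∈ U, ∀ t' ∈ Subgroup.zpowers h,
    ∀ v' ∈ U, u * t * w * v = u' * t' * w * v' → u = u' ∧ t = t' ∧ v = v'
  ne : ∀ u ∈ U, ∀ t ∈ Subgroup.zpowers h, ∀ u' ∈ U, ∀ t' ∈ Subgroup.zpowers h, ∀ v' ∈ U,
    u * t ≠ u' * t' * w * v'
  fp : ∀ t ∈ Subgroup.zpowers h, ∀ u ∈ U, t * u * t⁻¹ = u → t = 1 ∨ u = 1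
  cardU : Nat.card U = q ^ 2
  cardZ : Nat.card {u : G // u ∈ U ∧ u * u = 1} = q
  gen4 : ∀ K : Subgroup G, h ∈ K → ∀ v ∈ U, v ∈ K → v * v ≠ 1 → U ≤ K
  prod4 : ∀ u ∈ U, ∃ x ∈ U, ∃ y ∈ U, x * x ≠ 1 ∧ y * y ≠ 1 ∧ x * y = u

end Pool.Agent.SZQ
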