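import Pool.Agent.SZQ.Cnt

/-! SZQ / Fou: every element is a product of two elements of order 4 (helper92). -/

set_option autoImplicit false

namespace Pool.Agent.SZQ

open Subgroup

section
variable {q : ℕ} {G O : Type} [Group G] [Finite G] [MulAction G O] [Finite O]

/-- module Fou -/
theorem ZD.four (Z : ZD q G O) (hq : 8 ≤ q) (he : Even q) (g : G) :
    ∃ x y : G, (∃ p, x ∈ Z.U p ∧ x * x ≠ 1) ∧ (∃ p, y ∈ Z.U p ∧ y * y ≠ 1) ∧ x * y = g := by
  classical
  have hO : Nonempty O := by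
    by_contra h
    rw [not_nonempty_iff] at h
    have h1 := Z.cardO
    rw [Nat.card_of_isEmpty] at h1
    omega
  obtain ⟨o⟩ := hO
  by_cases h1 : ∃ p, g ∈ Z.U p
  · obtain ⟨p, hp⟩ := h1
    obtain ⟨x, hx, y, hy, hx2, hy2, hxy⟩ := Z.prod4 p g hp
    exact ⟨x, y, ⟨p, hx, hx2⟩, ⟨p, hy, hy2⟩, hxy⟩
  by_contra hcon
  -- basic facts
  have L1 : ∀ {a b : O} {u : G}, u⁻¹ * g ∈ Z.U a → u • a = g • a := by
    intro a b u hz
    have h2 := Z.fixU a _ hz
    rw [mul_smul, inv_smul_eq_iff] at h2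
    exact h2.symm
  have L2 : ∀ {b b' : O} {u : G}, u ∈ Z.U b → u ∈ Z.U b' → u ≠ 1 → b = b' := by
    intro b b' u hb hb' hu
    by_contra hne
    exact hu (Z.freeU b b' (fun h => hne h.symm) u hb (Z.fixU b' u hb'))
  let A : Set O := {a | g • a ≠ a}
  have hA : q ^ 2 - 1 ≤ A.ncard := by
    have h2 : Aᶜ.ncard ≤ 2 := by
      by_contra h3
      push Not at h3
      rw [Set.two_lt_ncard_iff (Set.toFinite _)] at h3
      obtain ⟨x, y, z, hx, hy, hz, hxy, hxz, hyz⟩ := h3
      have hx' : g • x = x := by simpa [A] using hx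
      have hy' : g • y = y := by simpa [A] using hy
      have hz' : g • z = z := by simpa [A] using hz
      have h4 := Z.free g x y z hxy hyz hxz hx' hy' hz'
      exact h1 ⟨o, by rw [h4]; exact one_mem _⟩
    have h3 := Set.ncard_add_ncard_compl A
    rw [Z.cardO] at h3
    omega
  let Bt : A → Type := fun a =>
    {b : O // b ≠ (a : O) ∧ b ≠ g • (a : O) ∧ ∃ u ∈ Z.U b, u⁻¹ * g ∈ Z.U (a : O)}
  have hP : Nat.card (Σ a : A, Bt a) = A.ncard * (q + 1) := by
    have : Fintype A := Fintype.ofFinite _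
    rw [Nat.card_sigma]
    have h2 : ∀ a : A, Nat.card (Bt a) = q + 1 := fun a => Z.cnt hq he rfl a.2
    rw [Finset.sum_congr rfl fun a _ => h2 a, Finset.sum_const, Finset.card_univ, smul_eq_mul,
      ← Nat.card_eq_fintype_card, Nat.card_coe_set_eq]
  let Ct : O → Type := fun a => {z : G // z ∈ Z.U a ∧ z * z = 1 ∧ z ≠ 1}
  have hC : Nat.card (Σ a : O, Ct a) = (q ^ 2 + 1) * (q - 1) := by
    have : Fintype O := Fintype.ofFinite _
    rw [Nat.card_sigma]
    have h2 : ∀ a : O, Nat.card (Ct a) = q - 1 := by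
      intro a
      have h3 : ({z : G | z ∈ Z.U a ∧ z * z = 1 ∧ z ≠ 1} : Set G) =
          {z : G | z ∈ Z.U a ∧ z * z = 1} \ {1} := by
        ext z
        simp [and_assoc]
      have h4 : ({z : G | z ∈ Z.U a ∧ z * z = 1} : Set G).ncard = q := Z.cardZ a
      have h5 : Nat.card (Ct a) = ({z : G | z ∈ Z.U a ∧ z * z = 1 ∧ z ≠ 1} : Set G).ncard := rfl
      rw [h5, h3, Set.ncard_sdiff_singleton_of_mem (by simp [one_mem]), h4]
    rw [Finset.sum_congr rfl fun a _ => h2 a, Finset.sum_const, Finset.card_univ, smul_eq_mul,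
      ← Nat.card_eq_fintype_card, Z.cardO]
  -- the pairs
  have hbad : ∀ (a : A) (b : Bt a), ∃ u : G, u ∈ Z.U b.1 ∧ u⁻¹ * g ∈ Z.U (a : O) ∧
      (u * u = 1 ∨ (u⁻¹ * g) * (u⁻¹ * g) = 1) := by
    intro a b
    obtain ⟨u, hu, hz⟩ := b.2.2.2
    refine ⟨u, hu, hz, ?_⟩
    by_contra hne
    push Not at hne
    exact hcon ⟨u, u⁻¹ * g, ⟨b.1, hu, hne.1⟩, ⟨a, hz, hne.2⟩, by group⟩
  choose u hu hz huz using hbad
  have hzne : ∀ (a : A) (b : Bt a), (u a b)⁻¹ * g ≠ 1 := by
    intro a b h2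
    have h3 : u a b = g := by
      rw [inv_mul_eq_one] at h2
      exact h2
    exact h1 ⟨b.1, by have h4 := hu a b; rwa [h3] at h4⟩
  have hune : ∀ (a : A) (b : Bt a), u a b ≠ 1 := by
    intro a b h2
    have h3 := L1 (b := b.1) (hz a b)
    rw [h2, one_smul] at h3
    exact a.2 h3.symm
  let Φ : (Σ a : A, Bt a) → A ⊕ (Σ a : O, Ct a) := fun p =>
    if h : u p.1 p.2 * u p.1 p.2 = 1 then Sum.inl p.1 else
      Sum.inr ⟨p.1, ⟨(u p.1 p.2)⁻¹ * g, hz p.1 p.2, (huz p.1 p.2).resolve_left h, hzne p.1 p.2⟩⟩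
  have hΦ : Function.Injective Φ := by
    rintro ⟨a, b⟩ ⟨a', b'⟩ h2
    by_cases c1 : u a b * u a b = 1
    · by_cases c2 : u a' b' * u a' b' = 1
      · have e1 : Φ ⟨a, b⟩ = Sum.inl a := dif_pos c1
        have e2 : Φ ⟨a', b'⟩ = Sum.inl a' := dif_pos c2
        rw [e1, e2] at h2
        obtain rfl := Sum.inl_injective h2
        have h3 : (u a b)⁻¹ * u a b' = 1 := by
          refine Z.freeU a (g • (a : O)) a.2 _ ?_ ?_
          · have h4 := mul_mem (hz a b) (inv_mem (hz a b'))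
            have h5 : (u a b)⁻¹ * g * ((u a b')⁻¹ * g)⁻¹ = (u a b)⁻¹ * u a b' := by group
            rwa [h5] at h4
          · have h6 := L1 (b := b.1) (hz a b)
            have h7 := L1 (b := b'.1) (hz a b')
            rw [mul_smul, inv_smul_eq_iff]
            nth_rewrite 1 [← h7]
            rw [← h6, ← mul_smul, ← mul_smul, c2, c1]
        have h8 : u a b = u a b' := by
          rw [inv_mul_eq_one] at h3
          exact h3
        have h9 : b.1 = b'.1 := L2 (hu a b) (by rw [h8]; exact hu a b') (hune a b)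
        rw [Subtype.ext h9]
      · have e1 : Φ ⟨a, b⟩ = Sum.inl a := dif_pos c1
        have e2 : Φ ⟨a', b'⟩ = _ := dif_neg c2
        rw [e1, e2] at h2
        exact absurd h2 (by simp)
    · by_cases c2 : u a' b' * u a' b' = 1
      · have e1 : Φ ⟨a, b⟩ = _ := dif_neg c1
        have e2 : Φ ⟨a', b'⟩ = Sum.inl a' := dif_pos c2
        rw [e1, e2] at h2
        exact absurd h2 (by simp)
      · have e1 : Φ ⟨a, b⟩ = _ := dif_neg c1
        have e2 : Φ ⟨a', b'⟩ = _ := dif_neg c2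
        rw [e1, e2] at h2
        have h3 := Sum.inr_injective h2
        have h4 : (a : O) = a' := congrArg (fun x : (Σ a : O, Ct a) => x.1) h3
        obtain rfl := Subtype.ext h4
        have h5 : (u a b)⁻¹ * g = (u a b')⁻¹ * g :=
          congrArg (fun x : (Σ a : O, Ct a) => x.2.1) h3
        have h8 : u a b = u a b' := by
          have := mul_right_cancel h5
          exact inv_injective this
        have h9 : b.1 = b'.1 := L2 (hu a b) (by rw [h8]; exact hu a b') (hune a b)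
        rw [Subtype.ext h9]
  have hle := Nat.card_le_card_of_injective Φ hΦ
  rw [hP, Nat.card_sum, hC, Nat.card_coe_set_eq] at hle
  obtain ⟨N, hN⟩ : ∃ N, N = A.ncard := ⟨_, rfl⟩
  rw [← hN] at hle hA
  obtain ⟨r, rfl⟩ : ∃ r, q = r + 1 := ⟨q - 1, by omega⟩
  have h10 : (r + 1) ^ 2 ≤ N + 1 := by omega
  rw [Nat.add_sub_cancel] at hle
  have h11 : N * (r + 1) ≤ ((r + 1) ^ 2 + 1) * r := by nlinarith
  nlinarith

end

end Pool.Agent.SZQ
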