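import Pool.Agent.SZQ.Defs
import Pool.Agent.Helper8.SUZ.Rel

set_option autoImplicit false

/-! # SZQ module InstG: the field gen4 for the Suzuki matrix groups -/

namespace Pool.Agent.SZQ

open Pool.Agent.Helper8.SUZ

variable {F : Type} [Field F] [Tits F]

theorem thmul_inj {x y : F} (h : th x * x = th y * y) : x = y := by
  have h2 : th (th x * x) = th (th y * y) := by rw [h]
  rw [map_mul, map_mul, th_th, th_th] at h2
  by_cases hk : th x * x = 0
  · have hx : x = 0 := by
      rcases mul_eq_zero.1 hk with h3 | h3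
      · exact (map_eq_zero th).1 h3
      · exact h3
    rw [hk] at h
    have hy : y = 0 := by
      rcases mul_eq_zero.1 h.symm with h3 | h3
      · exact (map_eq_zero th).1 h3
      · exact h3
    rw [hx, hy]
  · apply mul_left_cancel₀ hk
    calc th x * x * x = x ^ 2 * th x := by ring
      _ = y ^ 2 * th y := h2
      _ = th y * y * y := by ring
      _ = th x * x * y := by rw [h]

theorem gen4_core [Finite F] (K : Subgroup (GG F)) (hM : ∀ m : Fˣ, gM m ∈ K) {a b : F}
    (hv : gS a b ∈ K) (h2 : gS a b * gS a b ≠ 1) (c d : F) : gS c d ∈ K := by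
  have ha : a ≠ 0 := by
    rintro rfl
    apply h2
    rw [gS_mul, ← gS_zero]
    congr 1
    · ring
    · linear_combination b * two_zero (F := F)
  have hth : Function.Surjective (th : F →+* F) :=
    Finite.surjective_of_injective (th : F →+* F).injective
  have hsq : Function.Surjective (fun x : F => th x * x) :=
    Finite.surjective_of_injective fun x y h => thmul_inj h
  -- every nonzero first coordinate occurs
  have h3 : ∀ a' : F, a' ≠ 0 → ∃ b' : F, gS a' b' ∈ K := by
    intro a' ha'
    obtain ⟨m, hm⟩ := hth (a' / a)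
    have hm0 : m ≠ 0 := by
      rintro rfl
      rw [map_zero] at hm
      exact (div_ne_zero ha' ha) hm.symm
    have h4 : (gM (Units.mk0 m hm0))⁻¹ * (gS a b * gM (Units.mk0 m hm0)) ∈ K :=
      K.mul_mem (K.inv_mem (hM _)) (K.mul_mem hv (hM _))
    rw [gS_gM, inv_mul_cancel_left] at h4
    have h5 : th ((Units.mk0 m hm0 : Fˣ) : F) * a = a' := by
      rw [Units.val_mk0, hm, div_mul_cancel₀ _ ha]
    rw [h5] at h4
    exact ⟨_, h4⟩
  have h4 : ∀ c' : F, gS 0 c' ∈ K := by
    intro c'
    obtain ⟨x, hx⟩ := hsq c'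
    by_cases hx0 : x = 0
    · have h5 : c' = 0 := by
        rw [← hx]
        simp only [hx0, mul_zero]
      rw [h5, gS_zero]
      exact K.one_mem
    · obtain ⟨b', hb'⟩ := h3 x hx0
      have h5 := K.mul_mem hb' hb'
      rw [gS_mul] at h5
      have h6 : x + x = 0 := by linear_combination x * two_zero (F := F)
      have h7 : b' + b' + th x * x = c' := by
        have h8 : th x * x = c' := hx
        rw [h8]
        linear_combination b' * two_zero (F := F)
      rwa [h6, h7] at h5
  by_cases hc : c = 0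
  · rw [hc]
    exact h4 d
  · obtain ⟨b', hb'⟩ := h3 c hc
    have h5 := K.mul_mem hb' (h4 (d - b'))
    rw [gS_mul] at h5
    have h6 : c + 0 = c := add_zero c
    have h7 : b' + (d - b') + th c * 0 = d := by ring
    rwa [h6, h7] at h5

theorem gen4_sz [Finite F] (K : Subgroup (Sz (th : F →+* F))) {h v : Sz (th : F →+* F)}
    (hz : ∀ m : Fˣ, (⟨gM m, gM_mem m⟩ : Sz (th : F →+* F)) ∈ Subgroup.zpowers h)
    (hK : h ∈ K) {a b : F} (hv : (v : GG F) = gS a b) (hvK : v ∈ K) (hv2 : v * v ≠ 1) (c d : F) :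
    (⟨gS c d, gS_mem c d⟩ : Sz (th : F →+* F)) ∈ K := by
  have h1 : ∀ m : Fˣ, gM m ∈ K.map (Sz (th : F →+* F)).subtype := by
    intro m
    exact ⟨⟨gM m, gM_mem m⟩, (Subgroup.zpowers_le.2 hK) (hz m), rfl⟩
  have h2 : gS a b ∈ K.map (Sz (th : F →+* F)).subtype := ⟨v, hvK, hv⟩
  have h3 : gS a b * gS a b ≠ 1 := by
    intro h4
    apply hv2
    apply Subtype.ext
    show (v : GG F) * (v : GG F) = 1
    rw [hv, h4]
  obtain ⟨k, hk, hk2⟩ := gen4_core _ h1 h2 h3 c d
  have h5 : k = ⟨gS c d, gS_mem c d⟩ := Subtype.ext hk2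
  exact h5 ▸ hk

end Pool.Agent.SZQ
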