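import Pool.Agent.SZQ.Bas
import Pool.Agent.SZQ.Cnt

/-! Every `g ≠ 1` is a product of two conjugates of a given torus element (helper60). -/

set_option autoImplicit false

namespace Pool.Agent.SZQ

open Subgroup

section
variable {q : ℕ} {G O : Type} [Group G] [Finite G] [MulAction G O] [Finite O]

theorem ZD.step1 (Z : ZD q G O) (hq : 8 ≤ q) (he : Even q) {g h : G} (hg : g ≠ 1) (hh : h ≠ 1)
    {x y : O} (hxy : x ≠ y) (hx : h • x = x) (hy : h • y = y) :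
    ∃ c d : G, (c * h * c⁻¹) * (d * h * d⁻¹) = g := by
  have hq2 : 2 ≤ q := by omega
  have hmv : ∃ a : O, g • a ≠ a := by
    by_contra hcon
    push Not at hcon
    obtain ⟨z, hz1, hz2⟩ : ∃ z : O, z ≠ x ∧ z ≠ y := by
      by_contra h3
      push Not at h3
      have hs : (Set.univ : Set O) ⊆ {x, y} := by
        intro z _
        by_cases hzx : z = x
        · left; exact hzx
        · right; exact h3 z hzx
      have h1 := Set.ncard_le_ncard hs (Set.toFinite _)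
      rw [Set.ncard_univ, Set.ncard_pair hxy, Z.cardO] at h1
      nlinarith
    exact hg (Z.free g x y z hxy (Ne.symm hz2) (Ne.symm hz1) (hcon x) (hcon y) (hcon z))
  obtain ⟨a, ha⟩ := hmv
  have hcnt := Z.cnt hq he (rfl : g • a = g • a) ha
  have hne : Nonempty {b : O // b ≠ a ∧ b ≠ g • a ∧ ∃ u ∈ Z.U b, u⁻¹ * g ∈ Z.U a} := by
    by_contra hcon
    rw [not_nonempty_iff] at hcon
    rw [Nat.card_of_isEmpty] at hcnt
    omega
  obtain ⟨b, hba, hbc, u, hu, hua⟩ := hne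
  obtain ⟨k, hkx, hky⟩ := Z.two hq2 hxy (Ne.symm hba : a ≠ b)
  obtain ⟨h1, hh1⟩ : ∃ h1 : G, h1 = k * h * k⁻¹ := ⟨_, rfl⟩
  have h1a : h1 • a = a := by
    rw [← hkx, hh1]; simp [mul_smul, hx]
  have h1b : h1 • b = b := by
    rw [← hky, hh1]; simp [mul_smul, hy]
  have h11 : h1 ≠ 1 := by
    intro hc
    apply hh
    rw [hc] at hh1
    have := hh1.symm
    rwa [conj_eq_one_iff] at this
  obtain ⟨w, hwa, hwb, hw⟩ := Z.inv a b (Ne.symm hba)
  have hwi : w * h1 * w⁻¹ = h1⁻¹ := hw h1 h1a h1b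
  obtain ⟨v, hv, hve⟩ := Z.lang (Ne.symm hba) hu h1b h1a h11
  have h1a' : h1⁻¹ • a = a := by rw [inv_smul_eq_iff, h1a]
  have h1b' : h1⁻¹ • b = b := by rw [inv_smul_eq_iff, h1b]
  have hu' : h1⁻¹ * (u⁻¹ * g) * h1 ∈ Z.U a := by
    have := Z.conjU h1⁻¹ a _ hua
    rwa [inv_inv, h1a'] at this
  obtain ⟨v', hv', hve'⟩ := Z.lang hba hu' h1a' h1b' (inv_ne_one.mpr h11)
  refine ⟨v * k, v' * w * k, ?_⟩
  calc (v * k) * h * (v * k)⁻¹ * ((v' * w * k) * h * (v' * w * k)⁻¹)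
      = (v * h1 * v⁻¹) * (v' * (w * h1 * w⁻¹) * v'⁻¹) := by rw [hh1]; group
    _ = g := by rw [hve, hwi, hve']; group

end

end Pool.Agent.SZQ
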