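import Pool.Agent.SZQ.Stp
import Pool.Agent.SZQ.Fou
import Pool.Agent.SZQ.Bor
import Pool.Agent.SZQ.ClA
import Pool.Agent.SZQ.ClB

/-! Module ZMain: every element is a product of two elements without conjugates in `K`. -/

set_option autoImplicit false

namespace Pool.Agent.SZQ

open Subgroup

variable {q : ℕ} {G O : Type} [Group G] [Finite G] [MulAction G O] [Finite O]

private theorem main_stab (Z : ZD q G O) (hq : 8 ≤ q) (K : Subgroup G) (p : O)
    (hKp : ∀ k ∈ K, k • p = p) (g : G) : ∃ x y, Dr K x ∧ Dr K y ∧ x * y = g := by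
  obtain ⟨x, y, hx, hy, e⟩ := Z.bor hq g
  have key : ∀ z : G, (∀ a : O, z • a ≠ a) → Dr K z := by
    intro z hz c hc
    have h1 := hKp _ hc
    apply hz (c • p)
    rw [mul_smul, mul_smul, inv_smul_eq_iff] at h1
    exact h1
  exact ⟨x, y, key x hx, key y hy, e⟩

theorem ZD.main (Z : ZD q G O) (hq : 8 ≤ q) (he : Even q) (K : Subgroup G) (hK : K ≠ ⊤) (g : G) :
    ∃ x y, Dr K x ∧ Dr K y ∧ x * y = g := by
  classical
  -- two points
  obtain ⟨x, y, hxy⟩ : ∃ x y : O, x ≠ y := by
    have h1 : 1 < Nat.card O := by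
      rw [Z.cardO]
      nlinarith
    have := (Finite.one_lt_card_iff_nontrivial (α := O)).1 h1
    exact exists_pair_ne O
  obtain ⟨h, hx, hy, ho, -⟩ := Z.tor x y hxy
  have hh1 : h ≠ 1 := by
    intro h0
    rw [h0, orderOf_one] at ho
    omega
  by_cases hB : Dr K h
  · by_cases hg : g = 1
    · refine ⟨h, h⁻¹, hB, ?_, by rw [hg, mul_inv_cancel]⟩
      intro c hc
      apply hB c
      have := K.inv_mem hc
      have e : (c⁻¹ * h⁻¹ * c)⁻¹ = c⁻¹ * h * c := by group
      rwa [e] at this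
    · obtain ⟨c, d, e⟩ := Z.step1 hq he hg hh1 hxy hx hy
      have key : ∀ c : G, Dr K (c * h * c⁻¹) := by
        intro c b hb
        apply hB (c⁻¹ * b)
        have e : (c⁻¹ * b)⁻¹ * h * (c⁻¹ * b) = b⁻¹ * (c * h * c⁻¹) * b := by group
        rwa [e]
      exact ⟨_, _, key c, key d, e⟩
  · unfold Dr at hB
    push Not at hB
    obtain ⟨c, hc⟩ := hB
    by_cases hC : ∀ (p : O), ∀ v ∈ Z.U p, v ∈ K → v * v = 1
    · obtain ⟨a, b, ⟨p, hp1, hp2⟩, ⟨p', hp1', hp2'⟩, e⟩ := Z.four hq he g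
      have key : ∀ (z : G) (p : O), z ∈ Z.U p → z * z ≠ 1 → Dr K z := by
        intro z p hz hz2 b hb
        have h1 := Z.conjU b⁻¹ p z hz
        rw [inv_inv] at h1
        have h2 := hC _ _ h1 hb
        apply hz2
        have e : z * z = b * ((b⁻¹ * z * b) * (b⁻¹ * z * b)) * b⁻¹ := by group
        rw [e, h2]
        group
      exact ⟨a, b, key a p hp1 hp2, key b p' hp1' hp2', e⟩
    · push Not at hC
      obtain ⟨p, v, hvp, hvK, hv2⟩ := hC
      have hx' : (c⁻¹ * h * c) • (c⁻¹ • x) = c⁻¹ • x := by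
        rw [mul_smul, smul_inv_smul, mul_smul, hx]
      have hy' : (c⁻¹ * h * c) • (c⁻¹ • y) = c⁻¹ • y := by
        rw [mul_smul, smul_inv_smul, mul_smul, hy]
      have hxy' : c⁻¹ • x ≠ c⁻¹ • y := fun h0 => hxy (MulAction.injective c⁻¹ h0)
      have ho' : orderOf (c⁻¹ * h * c) = q - 1 := by
        have e : c⁻¹ * h * c = MulAut.conj c⁻¹ h := by
          rw [MulAut.conj_apply, inv_inv]
        rw [e, MulEquiv.orderOf_eq, ho]
      by_cases hno : ∀ t ∈ K, t • p = p → ∀ z, z ≠ p → t • z = z → t = 1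
      · exact (Z.clB hq K hc hxy' hx' hy' ho' hvK hvp hv2 hno).elim
      · push Not at hno
        obtain ⟨t, htK, htp, z, hzp, htz, ht1⟩ := hno
        have hst := Z.clA hq he K hc hxy' hx' hy' ho' hvK hvp hv2 htK ht1 htp hzp htz
        refine main_stab Z hq K p ?_ g
        intro k hk
        by_contra hkp
        apply hK
        rw [eq_top_iff]
        intro b _
        by_cases hb : b • p = p
        · exact hst (MulAction.mem_stabilizer_iff.2 hb)
        · obtain ⟨u, hu, hue⟩ := Z.exU p (k • p) (b • p) hkp hb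
          have h1 : b⁻¹ * u * k ∈ K := by
            apply hst
            rw [MulAction.mem_stabilizer_iff, mul_smul, mul_smul, hue, inv_smul_smul]
          have h2 : u ∈ K := hst (MulAction.mem_stabilizer_iff.2 (Z.fixU p u hu))
          have h3 := K.mul_mem (K.mul_mem h1 (K.inv_mem hk)) (K.inv_mem h2)
          have e : b⁻¹ * u * k * k⁻¹ * u⁻¹ = b⁻¹ := by group
          rw [e] at h3
          exact (K.inv_mem_iff).1 h3

end Pool.Agent.SZQ
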